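import Pool.Agent.Helper29.LR.Final
import Pool.Agent.Helper84.TN.Int

/-!
The robust form in terms of ranks of matrices.
-/

open Finset

namespace Pool.Agent.Helper29.LR

open Pool.Agent.Helper82.CF

variable {ι X F : Type*} [Fintype ι] [DecidableEq ι] [Fintype X] [DecidableEq X] [Field F]

/-- the same tree -/
def conv {ι : Type*} : Helper84.TN.Tree ι → Tree ι
  | .leaf i => .leaf i
  | .node l r => .node (conv l) (conv r)

omit [Fintype ι] in
theorem pos_conv (T : Helper84.TN.Tree ι) : (conv T).pos = T.set := by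
  induction T with
  | leaf i => rfl
  | node l r ihl ihr =>
    rw [conv, Tree.pos, ihl, ihr, Helper84.TN.Tree.set]

omit [Fintype ι] in
theorem size_conv {T : Helper84.TN.Tree ι} (hT : T.Proper) : (conv T).size + 1 = T.set.card := by
  induction T with
  | leaf i =>
    rw [conv, Tree.size, Helper84.TN.Tree.set, Finset.card_singleton]
  | node l r ihl ihr =>
    obtain ⟨h1, h2, h3⟩ := hT
    rw [conv, Tree.size, Helper84.TN.Tree.set, Finset.card_union_of_disjoint h3, ← ihl h1,
      ← ihr h2]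
    omega

theorem RankLe.add {f : (ι → X) → F} {D : Finset ι} {r : ℕ} (h : RankLe f D r) (d : ℕ) :
    RankLe f D (r + d) := by
  obtain ⟨g, h', hg, hh, hf⟩ := h
  refine ⟨Fin.append g fun _ _ => 0, Fin.append h' fun _ _ => 0, ?_, ?_, ?_⟩
  · intro t v w hvw
    refine Fin.addCases (fun i => ?_) (fun i => ?_) t
    · rw [Fin.append_left]
      exact hg i v w hvw
    · rw [Fin.append_right]
  · intro t v w hvw
    refine Fin.addCases (fun i => ?_) (fun i => ?_) t
    · rw [Fin.append_left]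
      exact hh i v w hvw
    · rw [Fin.append_right]
  · intro w
    rw [Fin.sum_univ_add]
    simp only [Fin.append_left, Fin.append_right, mul_zero, Finset.sum_const_zero, add_zero]
    exact hf w

theorem rankLe_of_rk {f : (ι → X) → F} {D : Finset ι} {s : ℕ}
    (h : Helper84.TN.rk f D ≤ s) : RankLe f D s := by
  classical
  obtain ⟨d, rfl⟩ := Nat.exists_eq_add_of_le h
  apply RankLe.add
  set W := Submodule.span F (Set.range (Helper84.TN.row f D)) with hW
  have hmem : ∀ v, Helper84.TN.row f D v ∈ W := fun v => Submodule.subset_span ⟨v, rfl⟩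
  have hconst : ∀ x ∈ W, ∀ v w : ι → X, (∀ i, i ∉ D → v i = w i) → x v = x w := by
    intro x hx v w hvw
    induction hx using Submodule.span_induction with
    | mem x hx =>
      obtain ⟨u, rfl⟩ := hx
      simp only [Helper84.TN.row]
      congr 1
      funext i
      by_cases hi : i ∈ D
      · rw [Finset.piecewise_eq_of_mem _ _ _ hi, Finset.piecewise_eq_of_mem _ _ _ hi]
      · rw [Finset.piecewise_eq_of_notMem _ _ _ hi, Finset.piecewise_eq_of_notMem _ _ _ hi,
          hvw i hi]
    | zero => rfl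
    | add x y _ _ hx hy => rw [Pi.add_apply, Pi.add_apply, hx, hy]
    | smul a x _ hx => rw [Pi.smul_apply, Pi.smul_apply, hx]
  let bas := Module.finBasis F W
  refine ⟨fun t v => bas.repr ⟨Helper84.TN.row f D v, hmem v⟩ t,
    fun t w => (bas t : (ι → X) → F) w, ?_, ?_, ?_⟩
  · intro t v w hvw
    have e : Helper84.TN.row f D v = Helper84.TN.row f D w := by
      funext u
      simp only [Helper84.TN.row]
      congr 1
      funext i
      by_cases hi : i ∈ D
      · rw [Finset.piecewise_eq_of_mem _ _ _ hi, Finset.piecewise_eq_of_mem _ _ _ hi, hvw i hi]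
      · rw [Finset.piecewise_eq_of_notMem _ _ _ hi, Finset.piecewise_eq_of_notMem _ _ _ hi]
    simp only [e]
  · intro t v w hvw
    exact hconst _ (bas t).2 v w hvw
  · intro w
    have h1 := bas.sum_repr ⟨Helper84.TN.row f D w, hmem w⟩
    have h2 := congrArg (fun y : W => (y : (ι → X) → F) w) h1
    simp only [Submodule.coe_sum, Submodule.coe_smul, Finset.sum_apply, Pi.smul_apply,
      smul_eq_mul] at h2
    have h3 : f w = Helper84.TN.row f D w w := by
      simp only [Helper84.TN.row, Finset.piecewise_same]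
    rw [h3]
    exact h2.symm

theorem treeRank_conv {f : (ι → X) → F} {s : ℕ} {T : Helper84.TN.Tree ι}
    (hr : ∀ D ∈ T.blocks, Helper84.TN.rk f D ≤ s) : TreeRank f s (conv T) := by
  induction T with
  | leaf i => trivial
  | node l r ihl ihr =>
    rw [conv, TreeRank, pos_conv, pos_conv]
    refine ⟨rankLe_of_rk (hr _ (Set.mem_insert _ _)), ihl fun D hD => hr D ?_,
      ihr fun D hD => hr D ?_⟩
    · exact Set.mem_insert_of_mem _ (Or.inl hD)
    · exact Set.mem_insert_of_mem _ (Or.inr hD)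

theorem size_eq_ncard (f : (ι → X) → F) :
    Helper84.TN.size f = ({w | f w ≠ 0} : Set (ι → X)).ncard := by
  classical
  unfold Helper84.TN.size
  rw [← Set.ncard_coe_finset]
  congr 1
  ext w
  simp

/-- Robust form, numbers. -/
theorem robust_value {A : Set ℕ} {n b x s k : ℕ} {T : Helper84.TN.Tree (Fin n)}
    (hT : T.Proper) (huniv : T.set = Finset.univ) (f : (Fin n → Fin b) → F) (hs : 1 ≤ s)
    (hr : ∀ D ∈ T.blocks, Helper84.TN.rk f D ≤ s) (hg : ∀ m ≤ 2 * x, rep A m < 2 ^ k) :
    (({w | f w ≠ 0 ∧ Helper84.TN.value w ∈ A ∧ Helper84.TN.value w ≤ x} :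
      Set (Fin n → Fin b)).ncard : ℝ) ≤
      32 * n * b * s * (Helper84.TN.size f : ℝ) ^ (1 - 1 / (2 * (5 : ℝ) ^ k)) := by
  classical
  have h := robust_words (A := A) (x := x) (k := k) (b := b) hg (t := conv T)
    (by rw [pos_conv, huniv]) hs (treeRank_conv hr)
  have hsz : (((conv T).size : ℝ) + 1) = n := by
    have := size_conv hT
    rw [huniv, Finset.card_univ, Fintype.card_fin] at this
    exact_mod_cast this
  rw [hsz, ← size_eq_ncard] at h
  refine le_trans ?_ h
  have hfin : ({a : ℕ | a ∈ A ∧ a ≤ x ∧ ∃ w : Fin n → Fin b, f w ≠ 0 ∧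
      ∑ i, (w i : ℕ) * b ^ (i : ℕ) = a} : Set ℕ).Finite :=
    (Set.finite_Iic x).subset fun a ha => ha.2.1
  have h1 : ({w | f w ≠ 0 ∧ Helper84.TN.value w ∈ A ∧ Helper84.TN.value w ≤ x} :
      Set (Fin n → Fin b)).ncard ≤ ({a : ℕ | a ∈ A ∧ a ≤ x ∧ ∃ w : Fin n → Fin b, f w ≠ 0 ∧
      ∑ i, (w i : ℕ) * b ^ (i : ℕ) = a} : Set ℕ).ncard := by
    refine Set.ncard_le_ncard_of_injOn Helper84.TN.value ?_
      (Helper84.TN.value_injective.injOn) hfin
    rintro w ⟨hw, hwA, hwx⟩
    exact ⟨hwA, hwx, w, hw, rfl⟩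
  exact_mod_cast h1

/-- Robust form, choices: `f` is a function of the digits of `m` (positions `inl i`) and of `a`
(positions `inr i`). -/
theorem robust_pair_value {A : Set ℕ} {n b x s k : ℕ} {T : Helper84.TN.Tree (Fin n ⊕ Fin n)}
    (hT : T.Proper) (huniv : T.set = Finset.univ) (f : (Fin n ⊕ Fin n → Fin b) → F) (hs : 1 ≤ s)
    (hr : ∀ D ∈ T.blocks, Helper84.TN.rk f D ≤ s) (hg : ∀ m ≤ 2 * x, rep A m < 2 ^ k) :
    (({m : ℕ | ∃ w : Fin n ⊕ Fin n → Fin b, f w ≠ 0 ∧
      Helper84.TN.value (fun i => w (.inl i)) = m ∧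
      ∃ a ∈ A, ∃ a' ∈ A, a ≤ x ∧ a' ≤ x ∧ a + a' = m ∧
        Helper84.TN.value (fun i => w (.inr i)) = a} : Set ℕ).ncard : ℝ) ≤
      64 * n * b * s * (Helper84.TN.size f : ℝ) ^ (1 - 1 / (2 * (5 : ℝ) ^ (2 * k))) := by
  classical
  have h := robust_choice (A := A) (x := x) (k := k) (b := b) (n := n) hg (t := conv T)
    (by rw [pos_conv, huniv]) hs (treeRank_conv hr)
  have hsz : (((conv T).size : ℝ) + 1) = 2 * n := by
    have := size_conv hT
    rw [huniv, Finset.card_univ, Fintype.card_sum, Fintype.card_fin] at this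
    have h2 : (conv T).size + 1 = 2 * n := by omega
    exact_mod_cast h2
  rw [hsz, ← size_eq_ncard] at h
  refine le_trans (le_of_eq ?_) (h.trans (le_of_eq ?_))
  · rfl
  · ring

end Pool.Agent.Helper29.LR
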