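import Mathlib

/-!
Families of sets without long triangular subfamilies: two of the dense subsets meet in a
dense set.
-/

open Finset

namespace Pool.Agent.Helper29.LR

variable {R U : Type*} [DecidableEq R] [DecidableEq U]

/-- sets of indices with private elements, one after the other -/
inductive Tri (C : R → Finset U) : Finset R → Prop
  | empty : Tri C ∅
  | insert {I : Finset R} {v : R} (h : Tri C I) (hv : v ∉ I) {u : U} (hu : u ∈ C v)
      (hI : ∀ j ∈ I, u ∉ C j) : Tri C (insert v I)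

theorem exists_tri (C T : R → Finset U) {s ν : ℕ} (J : Finset R)
    (hTC : ∀ v ∈ J, T v ⊆ C v) (hC : ∀ v ∈ J, (C v).card ≤ ν * (T v).card)
    (htri : ∀ I ⊆ J, Tri C I → I.card ≤ s) :
    ∃ I ⊆ J, Tri C I ∧ ∀ i ∈ J, i ∉ I → (C i).Nonempty →
      ∃ j ∈ I, (C j).card ≤ (C i).card ∧ (C i).card ≤ s * ν * (T i ∩ C j).card := by
  suffices h : ∀ J' : Finset R, J' ⊆ J → ∃ I ⊆ J', Tri C I ∧ ∀ i ∈ J', i ∉ I → (C i).Nonempty →
      ∃ j ∈ I, (C j).card ≤ (C i).card ∧ (C i).card ≤ s * ν * (T i ∩ C j).card from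
    h J Finset.Subset.rfl
  intro J'
  induction J' using Finset.induction_on_max_value (fun v => (C v).card) with
  | empty =>
    intro _
    exact ⟨∅, Finset.Subset.rfl, Tri.empty, by simp⟩
  | insert a J' ha hmax ih =>
    intro hsub
    obtain ⟨I, hIJ, hI, hI2⟩ := ih ((Finset.subset_insert _ _).trans hsub)
    have haJ : a ∈ J := hsub (Finset.mem_insert_self _ _)
    by_cases hnew : ∃ u ∈ C a, ∀ j ∈ I, u ∉ C j
    · obtain ⟨u, hu, hu2⟩ := hnew
      refine ⟨insert a I, Finset.insert_subset_insert _ hIJ,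
        Tri.insert hI (fun h => ha (hIJ h)) hu hu2, ?_⟩
      intro i hi hiI hne
      rw [Finset.mem_insert] at hi
      rcases hi with rfl | hi
      · exact absurd (Finset.mem_insert_self _ _) hiI
      · obtain ⟨j, hj, h1, h2⟩ := hI2 i hi (fun h => hiI (Finset.mem_insert_of_mem h)) hne
        exact ⟨j, Finset.mem_insert_of_mem hj, h1, h2⟩
    · push Not at hnew
      refine ⟨I, hIJ.trans (Finset.subset_insert _ _), hI, ?_⟩
      intro i hi hiI hne
      rw [Finset.mem_insert] at hi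
      rcases hi with rfl | hi
      · -- the new element
        have hcov : T i ⊆ I.biUnion fun j => T i ∩ C j := by
          intro u hu
          obtain ⟨j, hj, huj⟩ := hnew u (hTC i haJ hu)
          rw [Finset.mem_biUnion]
          exact ⟨j, hj, Finset.mem_inter.2 ⟨hu, huj⟩⟩
        have hsum : (T i).card ≤ ∑ j ∈ I, (T i ∩ C j).card :=
          (Finset.card_le_card hcov).trans Finset.card_biUnion_le
        have hIs : I.card ≤ s := htri I (hIJ.trans ((Finset.subset_insert _ _).trans hsub)) hI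
        have hCpos : 0 < (C i).card := Finset.card_pos.2 hne
        have hTpos : 0 < (T i).card := by
          rcases Nat.eq_zero_or_pos (T i).card with h0 | h0
          · have := hC i haJ
            rw [h0, mul_zero] at this
            omega
          · exact h0
        have hex : ∃ j ∈ I, (T i).card ≤ s * (T i ∩ C j).card := by
          by_contra hcon
          push Not at hcon
          have h1 : s * ∑ j ∈ I, (T i ∩ C j).card ≤ I.card * ((T i).card - 1) := by
            rw [Finset.mul_sum]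
            have := Finset.sum_le_card_nsmul I (fun j => s * (T i ∩ C j).card)
              ((T i).card - 1) (fun j hj => by have := hcon j hj; omega)
            rwa [smul_eq_mul] at this
          have hs : 0 < s := by
            rcases Nat.eq_zero_or_pos s with h0 | h0
            · rw [h0] at hIs
              have hI0 : I = ∅ := Finset.card_eq_zero.1 (by omega)
              rw [hI0, Finset.sum_empty] at hsum
              omega
            · exact h0
          have h2 : s * (T i).card ≤ s * ((T i).card - 1) :=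
            (Nat.mul_le_mul_left _ hsum).trans (h1.trans (Nat.mul_le_mul_right _ hIs))
          have h3 := Nat.le_of_mul_le_mul_left h2 hs
          omega
        obtain ⟨j, hj, h1⟩ := hex
        refine ⟨j, hj, hmax j (hIJ hj), ?_⟩
        calc (C i).card ≤ ν * (T i).card := hC i haJ
          _ ≤ ν * (s * (T i ∩ C j).card) := Nat.mul_le_mul_left _ h1
          _ = s * ν * (T i ∩ C j).card := by ring
      · obtain ⟨j, hj, h1, h2⟩ := hI2 i hi hiI hne
        exact ⟨j, hj, h1, h2⟩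

/-- many dense subsets: two of them have a dense intersection -/
theorem exists_two {J : Finset R} {Y : Finset U} (Z : R → Finset U) {κ : ℕ} (hκ : 1 ≤ κ)
    (hJ : 2 * κ ≤ J.card) (hZ : ∀ i ∈ J, Z i ⊆ Y) (hd : ∀ i ∈ J, Y.card ≤ κ * (Z i).card)
    (hY : Y.Nonempty) :
    ∃ i ∈ J, ∃ i' ∈ J, i ≠ i' ∧ Y.card ≤ 2 * κ ^ 2 * (Z i ∩ Z i').card := by
  by_contra hcon
  push Not at hcon
  obtain ⟨J', hJ'J, hJ'⟩ := Finset.exists_subset_card_eq hJ
  set d : U → ℕ := fun y => (J'.filter fun i => y ∈ Z i).card with hdd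
  have h1 : ∑ i ∈ J', (Z i).card = ∑ y ∈ Y, d y := by
    have h := Finset.sum_card_bipartiteAbove_eq_sum_card_bipartiteBelow
      (s := J') (t := Y) (fun i y => y ∈ Z i)
    have e1 : ∀ i ∈ J', (Y.filter fun y => y ∈ Z i) = Z i := by
      intro i hi
      ext y
      rw [Finset.mem_filter]
      exact ⟨fun h => h.2, fun h => ⟨hZ i (hJ'J hi) h, h⟩⟩
    rw [← Finset.sum_congr rfl fun i hi => congrArg Finset.card (e1 i hi)]
    exact h
  have h2 : ∑ w ∈ J'.offDiag, (Z w.1 ∩ Z w.2).card = ∑ y ∈ Y, (d y * d y - d y) := by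
    have h := Finset.sum_card_bipartiteAbove_eq_sum_card_bipartiteBelow
      (s := J'.offDiag) (t := Y) (fun w y => y ∈ Z w.1 ∧ y ∈ Z w.2)
    have e1 : ∀ w ∈ J'.offDiag, (Y.filter fun y => y ∈ Z w.1 ∧ y ∈ Z w.2) = Z w.1 ∩ Z w.2 := by
      intro w hw
      rw [Finset.mem_offDiag] at hw
      ext y
      rw [Finset.mem_filter, Finset.mem_inter]
      exact ⟨fun h => h.2, fun h => ⟨hZ _ (hJ'J hw.1) h.1, h⟩⟩
    have e2 : ∀ y, (J'.offDiag.filter fun w => y ∈ Z w.1 ∧ y ∈ Z w.2).card =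
        d y * d y - d y := by
      intro y
      have : (J'.offDiag.filter fun w => y ∈ Z w.1 ∧ y ∈ Z w.2) =
          (J'.filter fun i => y ∈ Z i).offDiag := by
        ext w
        simp only [Finset.mem_filter, Finset.mem_offDiag]
        tauto
      rw [this, Finset.offDiag_card]
    rw [← Finset.sum_congr rfl fun w hw => congrArg Finset.card (e1 w hw),
      ← Finset.sum_congr rfl fun y _ => e2 y]
    exact h
  -- `2 d ≤ 2 + d (d - 1)`
  have h3 : 2 * ∑ i ∈ J', (Z i).card ≤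
      2 * Y.card + ∑ w ∈ J'.offDiag, (Z w.1 ∩ Z w.2).card := by
    rw [h1, h2]
    have e : 2 * Y.card = ∑ _y ∈ Y, 2 := by rw [Finset.sum_const, smul_eq_mul, mul_comm]
    rw [e, Finset.mul_sum, ← Finset.sum_add_distrib]
    apply Finset.sum_le_sum
    intro y _
    rcases Nat.lt_or_ge (d y) 3 with h | h
    · interval_cases d y <;> norm_num
    · have : 3 * d y ≤ d y * d y := Nat.mul_le_mul_right _ h
      omega
  have h4 : 2 * κ * Y.card ≤ κ * ∑ i ∈ J', (Z i).card := by
    rw [Finset.mul_sum]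
    calc 2 * κ * Y.card = ∑ _i ∈ J', Y.card := by rw [Finset.sum_const, hJ', smul_eq_mul]
      _ ≤ ∑ i ∈ J', κ * (Z i).card := Finset.sum_le_sum fun i hi => hd i (hJ'J hi)
  have h5 : 2 * κ ^ 2 * ∑ w ∈ J'.offDiag, (Z w.1 ∩ Z w.2).card ≤
      (2 * κ * (2 * κ) - 2 * κ) * Y.card := by
    rw [Finset.mul_sum]
    have := Finset.sum_le_card_nsmul J'.offDiag
      (fun w => 2 * κ ^ 2 * (Z w.1 ∩ Z w.2).card) Y.card (fun w hw => by
        rw [Finset.mem_offDiag] at hw
        exact (hcon w.1 (hJ'J hw.1) w.2 (hJ'J hw.2.1) hw.2.2).le)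
    rwa [smul_eq_mul, Finset.offDiag_card, hJ'] at this
  have hYpos : 0 < Y.card := Finset.card_pos.2 hY
  -- combine
  obtain ⟨a, ha⟩ : ∃ a, a = ∑ i ∈ J', (Z i).card := ⟨_, rfl⟩
  obtain ⟨c, hc⟩ : ∃ c, c = ∑ w ∈ J'.offDiag, (Z w.1 ∩ Z w.2).card := ⟨_, rfl⟩
  rw [← ha, ← hc] at h3
  rw [← ha] at h4
  rw [← hc] at h5
  have h6 : 2 * κ ≤ 2 * κ * (2 * κ) := Nat.le_mul_of_pos_right _ (by omega)
  have h7 : (2 * κ * (2 * κ) - 2 * κ) * Y.card + 2 * κ * Y.card = 2 * κ * (2 * κ) * Y.card := by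
    rw [← add_mul, Nat.sub_add_cancel h6]
  have h8 : 4 * κ * (2 * κ * Y.card) ≤ 4 * κ * (κ * a) := Nat.mul_le_mul_left _ h4
  have h9 : 2 * κ ^ 2 * (2 * a) ≤ 2 * κ ^ 2 * (2 * Y.card + c) := Nat.mul_le_mul_left _ h3
  have h10 : 0 < κ * Y.card := Nat.mul_pos hκ hYpos
  nlinarith

/-- The combination. -/
theorem exists_dense_pair (C T : R → Finset U) {s ν : ℕ} (hs : 1 ≤ s) (hν : 1 ≤ ν)
    (J : Finset R) (hTC : ∀ v ∈ J, T v ⊆ C v) (hC : ∀ v ∈ J, (C v).card ≤ ν * (T v).card)
    (hne : ∀ v ∈ J, (C v).Nonempty) (htri : ∀ I ⊆ J, Tri C I → I.card ≤ s)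
    (hJ : s + s * (2 * (s * ν)) ≤ J.card) :
    ∃ v ∈ J, ∃ v' ∈ J, v ≠ v' ∧ ∃ j ∈ J, (C j).card ≤ 2 * (s * ν) ^ 2 * (T v ∩ T v').card ∧
      (C v).card ≤ s * ν * (C j).card := by
  obtain ⟨I, hIJ, hI, hI2⟩ := exists_tri C T J hTC hC htri
  have hIs := htri I hIJ hI
  have hκ : 1 ≤ s * ν := Nat.mul_pos hs hν
  have hcard : s * (2 * (s * ν)) ≤ (J \ I).card := by
    rw [Finset.card_sdiff_of_subset hIJ]
    omega
  have hch : ∀ i, ∃ j, i ∈ J \ I → j ∈ I ∧ (C j).card ≤ (C i).card ∧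
      (C i).card ≤ s * ν * (T i ∩ C j).card := by
    intro i
    by_cases hi : i ∈ J \ I
    · rw [Finset.mem_sdiff] at hi
      obtain ⟨j, h1, h2, h3⟩ := hI2 i hi.1 hi.2 (hne i hi.1)
      exact ⟨j, fun _ => ⟨h1, h2, h3⟩⟩
    · exact ⟨i, fun h => absurd h hi⟩
  choose φ hφ using hch
  have hIne : I.Nonempty := by
    have h1 : 0 < (J \ I).card := lt_of_lt_of_le (Nat.mul_pos hs (by omega)) hcard
    obtain ⟨i, hi⟩ := Finset.card_pos.1 h1
    exact ⟨φ i, (hφ i hi).1⟩
  obtain ⟨j, hj, hfib⟩ := Finset.exists_le_card_fiber_of_mul_le_card_of_maps_to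
    (s := J \ I) (t := I) (f := φ) (n := 2 * (s * ν)) (fun i hi => (hφ i hi).1) hIne
    ((Nat.mul_le_mul_right _ hIs).trans hcard)
  set J' := (J \ I).filter fun i => φ i = j with hJ'
  have hprop : ∀ i ∈ J', i ∈ J ∧ (C j).card ≤ (C i).card ∧
      (C i).card ≤ s * ν * (T i ∩ C j).card := by
    intro i hi
    rw [hJ', Finset.mem_filter] at hi
    obtain ⟨h1, h2, h3⟩ := hφ i hi.1
    rw [hi.2] at h2 h3
    exact ⟨(Finset.mem_sdiff.1 hi.1).1, h2, h3⟩
  obtain ⟨i, hi, i', hi', hne', hle⟩ := exists_two (Y := C j) (fun i => T i ∩ C j) hκ hfib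
    (fun i _ => Finset.inter_subset_right)
    (fun i hi => (hprop i hi).2.1.trans (hprop i hi).2.2) (hne j (hIJ hj))
  refine ⟨i, (hprop i hi).1, i', (hprop i' hi').1, hne', j, hIJ hj, ?_, ?_⟩
  · refine hle.trans (Nat.mul_le_mul_left _ (Finset.card_le_card ?_))
    intro u hu
    rw [Finset.mem_inter, Finset.mem_inter, Finset.mem_inter] at hu
    exact Finset.mem_inter.2 ⟨hu.1.1, hu.2.1⟩
  · exact (hprop i hi).2.2.trans
      (Nat.mul_le_mul_left _ (Finset.card_le_card Finset.inter_subset_right))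

end Pool.Agent.Helper29.LR
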