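import Pool.Agent.Helper29.LR.Main
import Pool.Agent.Helper29.RC.Rate

/-!
Sets with bounded representation function and functions of digits with small tree rank: the
robust form, for sets and for choices.
-/

open Finset
open scoped Pointwise

namespace Pool.Agent.Helper29.LR

open Pool.Agent.Helper82.CF Pool.Agent.Helper29.RC

/-- the exponent -/
def ee : ℕ → ℕ
  | 0 => 0
  | k + 1 => 5 * ee k + 6

theorem ee_le (k : ℕ) : ee k + 2 ≤ 2 * 5 ^ k := by
  induction k with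
  | zero => simp [ee]
  | succ k ih =>
    rw [ee, pow_succ]
    omega

theorem thr_le {M b : ℕ} (hM : 1 ≤ M) (hb : 1 ≤ b) (k : ℕ) : ∀ s μ : ℕ, 1 ≤ s → 1 ≤ μ →
    thr M b k s μ ≤ (16 * M * b * (s * μ)) ^ ee k := by
  induction k with
  | zero =>
    intro s μ _ _
    rw [thr, ee, pow_zero]
  | succ k ih =>
    intro s μ hs hμ
    obtain ⟨κ, hκ⟩ : ∃ κ, κ = s * (2 * M * μ) := ⟨_, rfl⟩
    have hκ1 : 1 ≤ κ := by
      rw [hκ]
      exact Nat.mul_pos hs (Nat.mul_pos (by omega) hμ)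
    obtain ⟨τ, hτ⟩ : ∃ τ, τ = thr M b k (s * s) (2 * κ ^ 3) := ⟨_, rfl⟩
    have hτ1 : 1 ≤ τ := by
      rw [hτ]
      exact thr_pos _ _ _ _ _
    obtain ⟨Q, hQ⟩ : ∃ Q, Q = 16 * M * b * (s * μ) := ⟨_, rfl⟩
    have hQ1 : 1 ≤ Q := by
      rw [hQ]
      exact Nat.mul_pos (Nat.mul_pos (by omega) hb) (Nat.mul_pos hs hμ)
    have hμ3 : 1 ≤ 2 * κ ^ 3 := by
      have : 0 < κ ^ 3 := Nat.pow_pos hκ1
      omega
    have h1 : 16 * M * b * (s * s * (2 * κ ^ 3)) ≤ Q ^ 5 := by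
      calc 16 * M * b * (s * s * (2 * κ ^ 3))
          = 256 * (M ^ 4 * b ^ 1 * s ^ 5 * μ ^ 3) := by
            rw [hκ]
            ring
        _ ≤ 16 ^ 5 * (M ^ 5 * b ^ 5 * s ^ 5 * μ ^ 5) := by
            refine Nat.mul_le_mul (by norm_num) (Nat.mul_le_mul (Nat.mul_le_mul (Nat.mul_le_mul
              (Nat.pow_le_pow_right hM (by norm_num)) (Nat.pow_le_pow_right hb (by norm_num)))
              le_rfl) (Nat.pow_le_pow_right hμ (by norm_num)))
        _ = Q ^ 5 := by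
            rw [hQ]
            ring
    have h2 : τ ≤ Q ^ (5 * ee k) := by
      rw [hτ, pow_mul]
      exact (ih (s * s) (2 * κ ^ 3) (Nat.mul_pos hs hs) hμ3).trans (Nat.pow_le_pow_left h1 _)
    have h3 : s + s * (2 * κ) ≤ 3 * (s * κ) := by
      have : s * 1 ≤ s * κ := Nat.mul_le_mul_left _ hκ1
      nlinarith
    have h4 : 2 * μ * (M * (b * (s + s * (2 * κ)) * (b * (s + s * (2 * κ))) *
        (2 * κ ^ 2 * τ))) ≤ 576 * (M ^ 5 * b ^ 2 * s ^ 6 * μ ^ 5 * τ) := by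
      calc 2 * μ * (M * (b * (s + s * (2 * κ)) * (b * (s + s * (2 * κ))) * (2 * κ ^ 2 * τ)))
          ≤ 2 * μ * (M * (b * (3 * (s * κ)) * (b * (3 * (s * κ))) * (2 * κ ^ 2 * τ))) := by
            gcongr
        _ = 576 * (M ^ 5 * b ^ 2 * s ^ 6 * μ ^ 5 * τ) := by
            rw [hκ]
            ring
    have h5 : 1 ≤ M ^ 5 * b ^ 2 * s ^ 6 * μ ^ 5 * τ := by
      refine Nat.mul_pos (Nat.mul_pos (Nat.mul_pos (Nat.mul_pos ?_ ?_) ?_) ?_) hτ1 <;>
        exact Nat.pow_pos (by assumption)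
    have h6 : 577 * (M ^ 5 * b ^ 2 * s ^ 6 * μ ^ 5 * τ) ≤ Q ^ 6 * τ := by
      calc 577 * (M ^ 5 * b ^ 2 * s ^ 6 * μ ^ 5 * τ)
          ≤ 16 ^ 6 * (M ^ 6 * b ^ 6 * s ^ 6 * μ ^ 6 * τ) := by
            refine Nat.mul_le_mul (by norm_num) (Nat.mul_le_mul (Nat.mul_le_mul (Nat.mul_le_mul
              (Nat.mul_le_mul (Nat.pow_le_pow_right hM (by norm_num))
                (Nat.pow_le_pow_right hb (by norm_num))) le_rfl)
              (Nat.pow_le_pow_right hμ (by norm_num))) le_rfl)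
        _ = Q ^ 6 * τ := by
            rw [hQ]
            ring
    have h7 : thr M b (k + 1) s μ ≤ Q ^ 6 * τ := by
      rw [thr, ← hκ, ← hτ]
      refine le_trans ?_ h6
      omega
    rw [← hQ]
    calc thr M b (k + 1) s μ ≤ Q ^ 6 * τ := h7
      _ ≤ Q ^ 6 * Q ^ (5 * ee k) := Nat.mul_le_mul_left _ h2
      _ = Q ^ ee (k + 1) := by
          rw [ee, ← pow_add]
          congr 1
          omega

variable {ι X F G : Type*} [Fintype ι] [DecidableEq ι] [Fintype X] [DecidableEq X] [Field F]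
  [AddCommGroup G] [DecidableEq G]

/-- Robust form: if the values of the words in `T` contain no proper Hilbert cube of dimension
`k`, then `T` is a small part of the support. -/
theorem card_le_of_not_hasCube {b : ℕ} (hb : 1 ≤ b) (hX : Fintype.card X ≤ b)
    {dig : ι → X → G} (hinj : Function.Injective (val dig)) {t : Tree ι} (ht : t.pos = univ)
    {s : ℕ} (hs : 1 ≤ s) {f : (ι → X) → F} (hf : TreeRank f s t) {T : Finset (ι → X)}
    (hT : T ⊆ supp f) {k : ℕ} (hno : ¬ HasCube k (T.image (val dig))) :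
    (T.card : ℝ) ≤ 32 * (t.size + 1) * b * s *
      ((supp f).card : ℝ) ^ (1 - 1 / (2 * (5 : ℝ) ^ k)) := by
  classical
  have h := real_formE (C := 16 * (t.size + 1) * b) (E := 2 * 5 ^ k) (s := s)
    (N := (supp f).card) (t := T.card) (by have : 0 < 5 ^ k := Nat.pow_pos (by norm_num); omega)
    (Finset.card_le_card hT) ?_
  · refine h.trans (le_of_eq ?_)
    push_cast
    ring
  · intro μ hμ hNT
    have hQ : 16 * b ≤ 16 * (t.size + 1) * b * (s * μ) := by
      calc 16 * b = 16 * 1 * b * (1 * 1) := by ring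
        _ ≤ 16 * (t.size + 1) * b * (s * μ) := by
            refine Nat.mul_le_mul (Nat.mul_le_mul_right _ (Nat.mul_le_mul_left _ (by omega)))
              (Nat.mul_le_mul hs hμ)
    have hQ1 : 1 < 16 * (t.size + 1) * b * (s * μ) := by omega
    by_contra hcon
    push Not at hcon
    rcases Nat.eq_zero_or_pos t.size with h0 | h0
    · -- a single leaf
      have h1 : (supp f).card ≤ b := by
        cases t with
        | node l r =>
          rw [Tree.size] at h0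
          omega
        | leaf i =>
          refine le_trans ?_ hX
          rw [← Finset.card_univ]
          refine Finset.card_le_card_of_injOn (fun w => w i) (fun _ _ => Finset.mem_coe.2
            (Finset.mem_univ _)) ?_
          intro w _ w' _ e
          simp only at e
          funext j
          have hj : j ∈ (Tree.leaf i).pos := by
            rw [ht]
            exact Finset.mem_univ _
          rw [Tree.pos, Finset.mem_singleton] at hj
          rw [hj, e]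
      have h2 : (16 * (t.size + 1) * b * (s * μ)) ^ 1 ≤
          (16 * (t.size + 1) * b * (s * μ)) ^ (2 * 5 ^ k) :=
        Nat.pow_le_pow_right (by omega)
          (by have : 0 < 5 ^ k := Nat.pow_pos (by norm_num); omega)
      rw [pow_one] at h2
      omega
    · apply hno
      refine hasCube_of_large (M := t.size + 1) (by omega) hb hX hinj ht h0 (by omega) k s μ f T
        hs hμ hf hT hNT ?_
      refine (thr_le (by omega) hb k s μ hs hμ).trans (le_trans ?_ hcon)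
      exact Nat.pow_le_pow_right (by omega) (by have := ee_le k; omega)

theorem Tree.pos_nonempty (t : Tree ι) : t.pos.Nonempty := by
  induction t with
  | leaf i =>
    rw [Tree.pos]
    exact Finset.singleton_nonempty i
  | node l r ihl _ =>
    rw [Tree.pos]
    exact ihl.mono Finset.subset_union_left

theorem ncard_supp (f : (ι → X) → F) : ({w | f w ≠ 0} : Set (ι → X)).ncard = (supp f).card := by
  classical
  rw [← Set.ncard_coe_finset]
  congr 1
  ext w
  rw [Set.mem_setOf_eq, Finset.mem_coe, mem_supp]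

/-- **Numbers.** -/
theorem robust_numbers {A : Set ℕ} {x k : ℕ} (hg : ∀ m ≤ 2 * x, rep A m < 2 ^ k)
    {dig : ι → X → ℤ} (hinj : Function.Injective fun w : ι → X => ∑ i, dig i (w i))
    {t : Tree ι} (ht : t.pos = univ) {s : ℕ} (hs : 1 ≤ s) {f : (ι → X) → F}
    (hf : TreeRank f s t) :
    (({a : ℕ | a ∈ A ∧ a ≤ x ∧ ∃ w : ι → X, f w ≠ 0 ∧ ∑ i, dig i (w i) = (a : ℤ)} :
      Set ℕ).ncard : ℝ) ≤ 32 * (t.size + 1) * Fintype.card X * s *
        ((({w | f w ≠ 0} : Set (ι → X)).ncard : ℕ) : ℝ) ^ (1 - 1 / (2 * (5 : ℝ) ^ k)) := by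
  classical
  rw [ncard_supp]
  set T : Finset (ι → X) := (supp f).filter fun w => ∃ a ∈ A, a ≤ x ∧ (a : ℤ) = val dig w with hT
  have hno : ¬ HasCube k (T.image (val dig)) := by
    apply not_hasCube (A := A) (x := x) (g := 2 ^ k - 1)
    · intro m hm
      have := hg m hm
      omega
    · have : 0 < 2 ^ k := Nat.pow_pos (by norm_num)
      omega
    · intro z hz
      obtain ⟨w, hw, rfl⟩ := Finset.mem_image.1 hz
      rw [hT, Finset.mem_filter] at hw
      exact hw.2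
  have h1 : ({a : ℕ | a ∈ A ∧ a ≤ x ∧ ∃ w : ι → X, f w ≠ 0 ∧ ∑ i, dig i (w i) = (a : ℤ)} :
      Set ℕ).ncard ≤ T.card := by
    rw [← Finset.card_image_of_injective T hinj, ← Set.ncard_coe_finset]
    refine Set.ncard_le_ncard_of_injOn (fun a : ℕ => (a : ℤ)) ?_ ?_ (Finset.finite_toSet _)
    · rintro a ⟨ha, hax, w, hw, e⟩
      rw [Finset.mem_coe, Finset.mem_image]
      exact ⟨w, Finset.mem_filter.2 ⟨mem_supp.2 hw, a, ha, hax, e.symm⟩, e⟩
    · intro a _ a' _ e
      exact Int.ofNat_inj.1 e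
  have h1r : (({a : ℕ | a ∈ A ∧ a ≤ x ∧ ∃ w : ι → X, f w ≠ 0 ∧ ∑ i, dig i (w i) = (a : ℤ)} :
      Set ℕ).ncard : ℝ) ≤ T.card := by exact_mod_cast h1
  rcases Nat.eq_zero_or_pos (Fintype.card X) with h0 | h0
  · have hX : IsEmpty X := Fintype.card_eq_zero_iff.1 h0
    have hT0 : T.card = 0 := by
      rw [Finset.card_eq_zero, Finset.eq_empty_iff_forall_notMem]
      intro w _
      obtain ⟨i, _⟩ := t.pos_nonempty
      exact hX.elim (w i)
    rw [hT0, Nat.cast_zero] at h1r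
    refine h1r.trans ?_
    positivity
  · exact h1r.trans (card_le_of_not_hasCube h0 le_rfl (dig := dig) hinj ht hs hf
      (Finset.filter_subset _ _) hno)

/-- **Pairs.** -/
theorem robust_pairs {A : Set ℕ} {x k : ℕ} (hg : ∀ m ≤ 2 * x, rep A m < 2 ^ k)
    {dig : ι → X → ℤ × ℤ} (hinj : Function.Injective fun w : ι → X => ∑ i, dig i (w i))
    {t : Tree ι} (ht : t.pos = univ) {s : ℕ} (hs : 1 ≤ s) {f : (ι → X) → F}
    (hf : TreeRank f s t) :
    (({m : ℕ | ∃ a ∈ A, ∃ a' ∈ A, a ≤ x ∧ a' ≤ x ∧ a + a' = m ∧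
      ∃ w : ι → X, f w ≠ 0 ∧ ∑ i, dig i (w i) = ((a : ℤ), (a' : ℤ))} :
      Set ℕ).ncard : ℝ) ≤ 32 * (t.size + 1) * Fintype.card X * s *
        ((({w | f w ≠ 0} : Set (ι → X)).ncard : ℕ) : ℝ) ^ (1 - 1 / (2 * (5 : ℝ) ^ (2 * k))) := by
  classical
  rw [ncard_supp]
  set T : Finset (ι → X) := (supp f).filter fun w =>
    (∃ a ∈ A, a ≤ x ∧ (a : ℤ) = (val dig w).1) ∧ ∃ a ∈ A, a ≤ x ∧ (a : ℤ) = (val dig w).2 with hT
  have hno : ¬ HasCube (2 * k) (T.image (val dig)) := by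
    apply not_hasCube_pair (A := A) (x := x) (g := 2 ^ k - 1)
    · intro m hm
      have := hg m hm
      omega
    · have : 0 < 2 ^ k := Nat.pow_pos (by norm_num)
      omega
    · intro z hz
      obtain ⟨w, hw, rfl⟩ := Finset.mem_image.1 hz
      rw [hT, Finset.mem_filter] at hw
      exact hw.2
  have h1 : ({m : ℕ | ∃ a ∈ A, ∃ a' ∈ A, a ≤ x ∧ a' ≤ x ∧ a + a' = m ∧
      ∃ w : ι → X, f w ≠ 0 ∧ ∑ i, dig i (w i) = ((a : ℤ), (a' : ℤ))} :
      Set ℕ).ncard ≤ T.card := by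
    refine le_trans ?_ (Finset.card_image_le (s := T)
      (f := fun w => ((val dig w).1 + (val dig w).2).toNat))
    rw [← Set.ncard_coe_finset]
    refine Set.ncard_le_ncard ?_ (Finset.finite_toSet _)
    rintro m ⟨a, ha, a', ha', hax, hax', rfl, w, hw, e⟩
    have e' : val dig w = ((a : ℤ), (a' : ℤ)) := e
    rw [Finset.mem_coe, Finset.mem_image]
    refine ⟨w, Finset.mem_filter.2 ⟨mem_supp.2 hw, ⟨a, ha, hax, by rw [e']⟩,
      a', ha', hax', by rw [e']⟩, ?_⟩
    rw [e']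
    simp only
    omega
  have h1r : (({m : ℕ | ∃ a ∈ A, ∃ a' ∈ A, a ≤ x ∧ a' ≤ x ∧ a + a' = m ∧
      ∃ w : ι → X, f w ≠ 0 ∧ ∑ i, dig i (w i) = ((a : ℤ), (a' : ℤ))} :
      Set ℕ).ncard : ℝ) ≤ T.card := by exact_mod_cast h1
  rcases Nat.eq_zero_or_pos (Fintype.card X) with h0 | h0
  · have hX : IsEmpty X := Fintype.card_eq_zero_iff.1 h0
    have hT0 : T.card = 0 := by
      rw [Finset.card_eq_zero, Finset.eq_empty_iff_forall_notMem]
      intro w _
      obtain ⟨i, _⟩ := t.pos_nonempty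
      exact hX.elim (w i)
    rw [hT0, Nat.cast_zero] at h1r
    refine h1r.trans ?_
    positivity
  · exact h1r.trans (card_le_of_not_hasCube h0 le_rfl (dig := dig) hinj ht hs hf
      (Finset.filter_subset _ _) hno)

/-- digits in base `b` -/
theorem word_injective (n b : ℕ) :
    Function.Injective fun w : Fin n → Fin b => ∑ i, ((w i : ℕ) : ℤ) * (b : ℤ) ^ (i : ℕ) := by
  intro w w' h
  simp only at h
  have h1 : ∑ i, (w i : ℕ) * b ^ (i : ℕ) = ∑ i, (w' i : ℕ) * b ^ (i : ℕ) := by exact_mod_cast h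
  rw [← finFunctionFinEquiv_apply, ← finFunctionFinEquiv_apply] at h1
  exact finFunctionFinEquiv.injective (Fin.ext h1)

/-- the digits of `m` and the digits of `a`, as digits of the pair `(a, m - a)` -/
def digPair (n b : ℕ) : Fin n ⊕ Fin n → Fin b → ℤ × ℤ
  | .inl i, d => (0, ((d : ℕ) : ℤ) * (b : ℤ) ^ (i : ℕ))
  | .inr i, d => (((d : ℕ) : ℤ) * (b : ℤ) ^ (i : ℕ), -(((d : ℕ) : ℤ) * (b : ℤ) ^ (i : ℕ)))

theorem sum_digPair (n b : ℕ) (w : Fin n ⊕ Fin n → Fin b) :
    ∑ i, digPair n b i (w i) = (∑ i, ((w (.inr i) : ℕ) : ℤ) * (b : ℤ) ^ (i : ℕ),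
      ∑ i, ((w (.inl i) : ℕ) : ℤ) * (b : ℤ) ^ (i : ℕ) -
        ∑ i, ((w (.inr i) : ℕ) : ℤ) * (b : ℤ) ^ (i : ℕ)) := by
  rw [Fintype.sum_sum_type]
  simp only [digPair]
  ext
  · simp [Prod.fst_sum]
  · simp [Prod.snd_sum, sub_eq_add_neg]

theorem digPair_injective (n b : ℕ) :
    Function.Injective fun w : Fin n ⊕ Fin n → Fin b => ∑ i, digPair n b i (w i) := by
  intro w w' h
  simp only [sum_digPair, Prod.mk.injEq] at h
  obtain ⟨h1, h2⟩ := h
  rw [h1] at h2
  have h3 := sub_left_injective h2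
  have e1 := word_injective n b (a₁ := fun i => w (.inr i)) (a₂ := fun i => w' (.inr i)) h1
  have e2 := word_injective n b (a₁ := fun i => w (.inl i)) (a₂ := fun i => w' (.inl i)) h3
  funext i
  cases i with
  | inl i => exact congrFun e2 i
  | inr i => exact congrFun e1 i

/-- Numbers with `n` digits in base `b`. -/
theorem robust_words {A : Set ℕ} {x k n b : ℕ} (hg : ∀ m ≤ 2 * x, rep A m < 2 ^ k)
    {t : Tree (Fin n)} (ht : t.pos = univ) {s : ℕ} (hs : 1 ≤ s) {f : (Fin n → Fin b) → F}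
    (hf : TreeRank f s t) :
    (({a : ℕ | a ∈ A ∧ a ≤ x ∧ ∃ w : Fin n → Fin b, f w ≠ 0 ∧
      ∑ i, (w i : ℕ) * b ^ (i : ℕ) = a} : Set ℕ).ncard : ℝ) ≤
      32 * (t.size + 1) * b * s *
        ((({w | f w ≠ 0} : Set (Fin n → Fin b)).ncard : ℕ) : ℝ) ^
          (1 - 1 / (2 * (5 : ℝ) ^ k)) := by
  have h := robust_numbers hg (dig := fun (i : Fin n) (d : Fin b) =>
    ((d : ℕ) : ℤ) * (b : ℤ) ^ (i : ℕ)) (word_injective n b) ht hs hf
  rw [Fintype.card_fin] at h
  refine le_trans (le_of_eq ?_) h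
  congr 2
  ext a
  simp only [Set.mem_setOf_eq]
  refine and_congr_right fun _ => and_congr_right fun _ => exists_congr fun w =>
    and_congr_right fun _ => ?_
  constructor
  · intro e
    exact_mod_cast e
  · intro e
    exact_mod_cast e

/-- Choices of a summand: the digits of `m` and of `a`. -/
theorem robust_choice {A : Set ℕ} {x k n b : ℕ} (hg : ∀ m ≤ 2 * x, rep A m < 2 ^ k)
    {t : Tree (Fin n ⊕ Fin n)} (ht : t.pos = univ) {s : ℕ} (hs : 1 ≤ s)
    {f : (Fin n ⊕ Fin n → Fin b) → F} (hf : TreeRank f s t) :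
    (({m : ℕ | ∃ w : Fin n ⊕ Fin n → Fin b, f w ≠ 0 ∧ ∑ i, (w (.inl i) : ℕ) * b ^ (i : ℕ) = m ∧
      ∃ a ∈ A, ∃ a' ∈ A, a ≤ x ∧ a' ≤ x ∧ a + a' = m ∧
        ∑ i, (w (.inr i) : ℕ) * b ^ (i : ℕ) = a} : Set ℕ).ncard : ℝ) ≤
      32 * (t.size + 1) * b * s *
        ((({w | f w ≠ 0} : Set (Fin n ⊕ Fin n → Fin b)).ncard : ℕ) : ℝ) ^
          (1 - 1 / (2 * (5 : ℝ) ^ (2 * k))) := by
  have h := robust_pairs hg (digPair_injective n b) ht hs hf
  rw [Fintype.card_fin] at h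
  refine le_trans (le_of_eq ?_) h
  congr 2
  ext m
  simp only [Set.mem_setOf_eq]
  constructor
  · rintro ⟨w, hw, e1, a, ha, a', ha', hax, hax', e, e2⟩
    refine ⟨a, ha, a', ha', hax, hax', e, w, hw, ?_⟩
    rw [sum_digPair]
    have e1' : ∑ i, ((w (.inl i) : ℕ) : ℤ) * (b : ℤ) ^ (i : ℕ) = (m : ℤ) := by exact_mod_cast e1
    have e2' : ∑ i, ((w (.inr i) : ℕ) : ℤ) * (b : ℤ) ^ (i : ℕ) = (a : ℤ) := by exact_mod_cast e2
    rw [e1', e2', ← e]
    push_cast
    rw [add_sub_cancel_left]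
  · rintro ⟨a, ha, a', ha', hax, hax', e, w, hw, e3⟩
    rw [sum_digPair, Prod.mk.injEq] at e3
    obtain ⟨e2', e4⟩ := e3
    have e1' : ∑ i, ((w (.inl i) : ℕ) : ℤ) * (b : ℤ) ^ (i : ℕ) = (m : ℤ) := by
      rw [e2'] at e4
      rw [← e]
      push_cast
      rw [← e4, add_sub_cancel]
    refine ⟨w, hw, by exact_mod_cast e1', a, ha, a', ha', hax, hax', e, by exact_mod_cast e2'⟩

end Pool.Agent.Helper29.LR
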