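import Pool.Agent.Helper29.LR.Rank

/-!
Functions of digits with small tree rank: a dense subset of a large support contains a Hilbert
cube.
-/

open Finset
open scoped Pointwise

namespace Pool.Agent.Helper29.LR

open Pool.Agent.Helper82.CF Pool.Agent.Helper29.RC

variable {ι X F G : Type*} [Fintype ι] [DecidableEq ι] [Fintype X] [DecidableEq X] [Field F]
  [AddCommGroup G] [DecidableEq G]

/-- the value of a word -/
def val (dig : ι → X → G) (w : ι → X) : G := ∑ i, dig i (w i)

omit [Fintype X] [DecidableEq X] [DecidableEq G] in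
theorem val_ov {dig : ι → X → G} {D : Finset ι} {v v' w : ι → X} (hw : ∀ i ∈ D, w i = v i) :
    val dig (ov D v' w) = val dig w + (val dig (ov D v' v) - val dig v) := by
  unfold val
  rw [← Finset.sum_sub_distrib, ← Finset.sum_add_distrib]
  apply Finset.sum_congr rfl
  intro i _
  by_cases hi : i ∈ D
  · rw [ov_mem hi, ov_mem hi, hw i hi]
    abel
  · rw [ov_notMem hi, ov_notMem hi]
    abel

omit [Fintype X] in
theorem hasCube_pair {k : ℕ} {dig : ι → X → G} (hinj : Function.Injective (val dig))
    {T : Finset (ι → X)} {D : Finset ι} {v v' : ι → X} {i : ι} (hi : i ∈ D) (hvv : v i ≠ v' i)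
    (h : HasCube k ((pairSet T D v v').image (val dig))) :
    HasCube (k + 1) (T.image (val dig)) := by
  obtain ⟨l, c, hl, hc, hsub⟩ := h
  obtain ⟨δ, hδ⟩ : ∃ δ, δ = val dig (ov D v' v) - val dig v := ⟨_, rfl⟩
  have key : ∀ q ∈ cube l, ∃ w ∈ T, (∀ i ∈ D, w i = v i) ∧ ov D v' w ∈ T ∧
      val dig w = c + q := by
    intro q hq
    have h1 := hsub (Finset.mem_add.2 ⟨c, Finset.mem_singleton_self _, q, hq, rfl⟩)
    obtain ⟨w, hw, e⟩ := Finset.mem_image.1 h1
    rw [pairSet, Finset.mem_filter] at hw
    exact ⟨w, hw.1, hw.2.1, hw.2.2, e⟩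
  refine ⟨δ :: l, c, by rw [List.length_cons, hl], ?_, ?_⟩
  · rw [cube_cons]
    have e1 : {0, δ} + cube l = cube l ∪ ({δ} + cube l) := by
      rw [Finset.insert_eq, Finset.union_add, Finset.singleton_zero, zero_add]
    have hdisj : Disjoint (cube l) ({δ} + cube l) := by
      rw [Finset.disjoint_left]
      intro z hz hz'
      obtain ⟨e, he, q, hq, rfl⟩ := Finset.mem_add.1 hz'
      rw [Finset.mem_singleton] at he
      rw [he] at hz
      obtain ⟨w, -, hw, -, e3⟩ := key _ hz
      obtain ⟨w', -, hw', -, e'⟩ := key q hq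
      have h1 : val dig (ov D v' w') = val dig w := by
        rw [val_ov hw', e', e3, hδ]
        abel
      have h2 := hinj h1
      have h3 := congrFun h2 i
      rw [ov_mem hi, hw i hi] at h3
      exact hvv h3.symm
    rw [e1, Finset.card_union_of_disjoint hdisj, Helper82.CF.card_singleton_add, hc]
    ring
  · rw [cube_cons]
    intro z hz
    obtain ⟨t', ht', w, hw, rfl⟩ := Finset.mem_add.1 hz
    rw [Finset.mem_singleton] at ht'
    subst ht'
    obtain ⟨e, he, q, hq, rfl⟩ := Finset.mem_add.1 hw
    obtain ⟨w', h1, h2, h3, h4⟩ := key q hq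
    rw [Finset.mem_insert, Finset.mem_singleton] at he
    rcases he with he | he
    · rw [he]
      exact Finset.mem_image.2 ⟨w', h1, by rw [h4, zero_add]⟩
    · refine Finset.mem_image.2 ⟨ov D v' w', h3, ?_⟩
      rw [val_ov h2, h4, he, hδ]
      abel

theorem sec_congr (S : Finset (ι → X)) {D : Finset ι} {v v' : ι → X}
    (h : ∀ i ∈ D, v i = v' i) : sec S D v = sec S D v' := by
  unfold sec
  apply Finset.filter_congr
  intro w _
  exact ⟨fun H i hi => (H i hi).trans (h i hi), fun H i hi => (H i hi).trans (h i hi).symm⟩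

theorem sec_ov (S : Finset (ι → X)) (D : Finset ι) (v o : ι → X) :
    sec S D (ov D v o) = sec S D v := sec_congr S fun _ hi => ov_mem hi

/-- different classes have disjoint sections -/
theorem sum_sec_le (S J : Finset (ι → X)) (D : Finset ι) (o : ι → X)
    (hJ : ∀ v ∈ J, ∀ i, i ∉ D → v i = o i) : ∑ v ∈ J, (sec S D v).card ≤ S.card := by
  rw [← Finset.card_biUnion]
  · apply Finset.card_le_card
    intro w hw
    obtain ⟨v, -, hv⟩ := Finset.mem_biUnion.1 hw
    exact (Finset.mem_filter.1 hv).1
  · intro v hv v' hv' hne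
    refine Finset.disjoint_left.2 ?_
    intro w hw hw'
    apply hne
    funext i
    by_cases hi : i ∈ D
    · rw [← (Finset.mem_filter.1 hw).2 i hi, (Finset.mem_filter.1 hw').2 i hi]
    · rw [hJ v hv i hi, hJ v' hv' i hi]

/-- few words have a sparse section -/
theorem sparse_le (S T : Finset (ι → X)) (D : Finset ι) (ν : ℕ) :
    ν * (T.filter fun a => ν * (sec T D a).card < (sec S D a).card).card ≤ S.card := by
  rcases (T.filter fun a => ν * (sec T D a).card < (sec S D a).card).eq_empty_or_nonempty with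
    h0 | ⟨o, -⟩
  · rw [h0, Finset.card_empty, mul_zero]
    exact Nat.zero_le _
  · set B := T.filter fun a => ν * (sec T D a).card < (sec S D a).card with hB
    rw [Finset.card_eq_sum_card_image (fun a => ov D a o) B, Finset.mul_sum]
    refine le_trans (Finset.sum_le_sum ?_) (sum_sec_le S (B.image fun a => ov D a o) D o ?_)
    · intro β hβ
      obtain ⟨a, ha, rfl⟩ := Finset.mem_image.1 hβ
      rw [hB, Finset.mem_filter] at ha
      rw [sec_ov]
      refine le_trans (Nat.mul_le_mul_left _ (Finset.card_le_card ?_)) ha.2.le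
      intro a' ha'
      rw [Finset.mem_filter, hB, Finset.mem_filter] at ha'
      rw [sec, Finset.mem_filter]
      refine ⟨ha'.1.1, fun i hi => ?_⟩
      have h1 := congrFun ha'.2 i
      rwa [ov_mem hi, ov_mem hi] at h1
    · intro v hv i hi
      obtain ⟨a, -, rfl⟩ := Finset.mem_image.1 hv
      exact ov_notMem hi

/-- the sections at all inner nodes are dense -/
def DenseAt (S T : Finset (ι → X)) (ν : ℕ) (a : ι → X) : Tree ι → Prop
  | .leaf _ => True
  | .node l r => (sec S (l.pos ∪ r.pos) a).card ≤ ν * (sec T (l.pos ∪ r.pos) a).card ∧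
      DenseAt S T ν a l ∧ DenseAt S T ν a r

open Classical in
theorem not_dense_le (S T : Finset (ι → X)) (ν : ℕ) (t : Tree ι) :
    ν * (T.filter fun a => ¬ DenseAt S T ν a t).card ≤ t.size * S.card := by
  induction t with
  | leaf i =>
    have : (T.filter fun a => ¬ DenseAt S T ν a (.leaf i)) = ∅ := by
      apply Finset.filter_false_of_mem
      intro a _ h
      exact h trivial
    rw [this, Finset.card_empty, mul_zero]
    exact Nat.zero_le _
  | node l r ihl ihr =>
    have hsub : (T.filter fun a => ¬ DenseAt S T ν a (.node l r)) ⊆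
        (T.filter fun a => ¬ DenseAt S T ν a l) ∪ (T.filter fun a => ¬ DenseAt S T ν a r) ∪
        (T.filter fun a => ν * (sec T (l.pos ∪ r.pos) a).card <
          (sec S (l.pos ∪ r.pos) a).card) := by
      intro a ha
      rw [Finset.mem_filter] at ha
      rw [Finset.mem_union, Finset.mem_union, Finset.mem_filter, Finset.mem_filter,
        Finset.mem_filter]
      by_contra hcon
      apply ha.2
      refine ⟨?_, ?_, ?_⟩
      · by_contra h
        exact hcon (Or.inr ⟨ha.1, not_le.1 h⟩)
      · by_contra h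
        exact hcon (Or.inl (Or.inl ⟨ha.1, h⟩))
      · by_contra h
        exact hcon (Or.inl (Or.inr ⟨ha.1, h⟩))
    have h1 := (Finset.card_le_card hsub).trans ((Finset.card_union_le _ _).trans
      (Nat.add_le_add_right (Finset.card_union_le _ _) _))
    have h2 := sparse_le S T (l.pos ∪ r.pos) ν
    have h3 := Nat.mul_le_mul_left ν h1
    rw [mul_add, mul_add] at h3
    have h4 : (Tree.node l r).size * S.card = l.size * S.card + r.size * S.card + S.card := by
      rw [Tree.size]
      ring
    rw [h4]
    omega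

/-- the section at the node is small -/
def Light (S : Finset (ι → X)) (θ : ℕ) (a : ι → X) : Tree ι → Prop
  | .leaf _ => False
  | .node l r => (sec S (l.pos ∪ r.pos) a).card ≤ θ

/-- few classes of words of `Z` have a large section, at all inner nodes -/
def ClassLe (S Z : Finset (ι → X)) (o : ι → X) (θ H : ℕ) : Tree ι → Prop
  | .leaf _ => True
  | .node l r => ((Z.filter fun a => θ < (sec S (l.pos ∪ r.pos) a).card).image
      fun a => ov (l.pos ∪ r.pos) a o).card ≤ H ∧ ClassLe S Z o θ H l ∧ ClassLe S Z o θ H r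

theorem ClassLe.mono {S Z Z' : Finset (ι → X)} {o : ι → X} {θ H : ℕ} {t : Tree ι}
    (h : ClassLe S Z o θ H t) (hZ : Z' ⊆ Z) : ClassLe S Z' o θ H t := by
  induction t with
  | leaf i => trivial
  | node l r ihl ihr =>
    exact ⟨(Finset.card_le_card (Finset.image_subset_image
      (Finset.filter_subset_filter _ hZ))).trans h.1, ihl h.2.1, ihr h.2.2⟩

open Classical in
theorem classes_le {S Z : Finset (ι → X)} {o : ι → X} {θ H b : ℕ} (hb : 1 ≤ b) (hH : 1 ≤ H)
    (hX : Fintype.card X ≤ b) {t : Tree ι} (h : ClassLe S Z o θ H t) :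
    ((Z.filter fun a => ¬ Light S θ a t).image fun a => ov t.pos a o).card ≤ b * H := by
  cases t with
  | leaf i =>
    refine le_trans ?_ (Nat.le_mul_of_pos_right b hH)
    refine le_trans ?_ hX
    rw [← Finset.card_univ]
    refine Finset.card_le_card_of_injOn (fun β => β i) (fun _ _ => Finset.mem_coe.2
      (Finset.mem_univ _)) ?_
    intro β hβ β' hβ' e
    obtain ⟨a, -, rfl⟩ := Finset.mem_image.1 (Finset.mem_coe.1 hβ)
    obtain ⟨a', -, rfl⟩ := Finset.mem_image.1 (Finset.mem_coe.1 hβ')
    have hi : i ∈ (Tree.leaf i).pos := by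
      rw [Tree.pos]
      exact Finset.mem_singleton_self _
    simp only [ov_mem hi] at e
    funext j
    by_cases hj : j ∈ (Tree.leaf i).pos
    · rw [ov_mem hj, ov_mem hj]
      rw [Tree.pos, Finset.mem_singleton] at hj
      rw [hj, e]
    · rw [ov_notMem hj, ov_notMem hj]
  | node l r =>
    refine le_trans ?_ (Nat.le_mul_of_pos_left H hb)
    refine le_trans (Finset.card_le_card ?_) h.1
    apply Finset.image_subset_image
    intro a ha
    rw [Finset.mem_filter] at ha ⊢
    exact ⟨ha.1, not_le.1 ha.2⟩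

open Classical in
/-- the number of words whose section at the root is small -/
theorem light_le {S : Finset (ι → X)} {o : ι → X} {θ H b : ℕ} (hb : 1 ≤ b) (hH : 1 ≤ H)
    (hX : Fintype.card X ≤ b) (t : Tree ι) : ∀ Z : Finset (ι → X), Z ⊆ S →
    ClassLe S Z o θ H t → (∀ a ∈ Z, Light S θ a t) →
    Z.card ≤ t.size * (b * H * (b * H) * θ) := by
  induction t with
  | leaf i =>
    intro Z _ _ hl
    rcases Z.eq_empty_or_nonempty with h0 | ⟨a, ha⟩
    · rw [h0, Finset.card_empty]
      exact Nat.zero_le _
    · exact absurd (hl a ha) (fun h => h)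
  | node l r ihl ihr =>
    intro Z hZS hcl hlight
    have hsub : Z ⊆ (Z.filter fun a => Light S θ a l) ∪ (Z.filter fun a => Light S θ a r) ∪
        (Z.filter fun a => ¬ Light S θ a l ∧ ¬ Light S θ a r) := by
      intro a ha
      rw [Finset.mem_union, Finset.mem_union, Finset.mem_filter, Finset.mem_filter,
        Finset.mem_filter]
      by_cases h1 : Light S θ a l
      · exact Or.inl (Or.inl ⟨ha, h1⟩)
      · by_cases h2 : Light S θ a r
        · exact Or.inl (Or.inr ⟨ha, h2⟩)
        · exact Or.inr ⟨ha, h1, h2⟩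
    have h1 := (Finset.card_le_card hsub).trans ((Finset.card_union_le _ _).trans
      (Nat.add_le_add_right (Finset.card_union_le _ _) _))
    have h2 := ihl (Z.filter fun a => Light S θ a l) ((Finset.filter_subset _ _).trans hZS)
      (hcl.2.1.mono (Finset.filter_subset _ _)) (fun a ha => (Finset.mem_filter.1 ha).2)
    have h3 := ihr (Z.filter fun a => Light S θ a r) ((Finset.filter_subset _ _).trans hZS)
      (hcl.2.2.mono (Finset.filter_subset _ _)) (fun a ha => (Finset.mem_filter.1 ha).2)
    have h4 : (Z.filter fun a => ¬ Light S θ a l ∧ ¬ Light S θ a r).card ≤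
        b * H * (b * H) * θ := by
      set Z3 := Z.filter fun a => ¬ Light S θ a l ∧ ¬ Light S θ a r with hZ3
      have h5 : Z3.card ≤ θ * (Z3.image fun a => (ov l.pos a o, ov r.pos a o)).card := by
        apply Finset.card_le_mul_card_image
        intro p hp
        obtain ⟨a, ha, rfl⟩ := Finset.mem_image.1 hp
        rw [hZ3, Finset.mem_filter] at ha
        refine le_trans (Finset.card_le_card ?_) (hlight a ha.1)
        intro a' ha'
        rw [Finset.mem_filter, hZ3, Finset.mem_filter] at ha'
        rw [sec, Finset.mem_filter]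
        refine ⟨hZS ha'.1.1, fun i hi => ?_⟩
        have e := ha'.2
        simp only [Prod.mk.injEq] at e
        rw [Finset.mem_union] at hi
        rcases hi with hi | hi
        · have h6 := congrFun e.1 i
          rwa [ov_mem hi, ov_mem hi] at h6
        · have h6 := congrFun e.2 i
          rwa [ov_mem hi, ov_mem hi] at h6
      have h6 : (Z3.image fun a => (ov l.pos a o, ov r.pos a o)).card ≤ b * H * (b * H) := by
        refine le_trans (Finset.card_le_card (t :=
          ((Z.filter fun a => ¬ Light S θ a l).image fun a => ov l.pos a o) ×ˢ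
          ((Z.filter fun a => ¬ Light S θ a r).image fun a => ov r.pos a o)) ?_) ?_
        · intro p hp
          obtain ⟨a, ha, rfl⟩ := Finset.mem_image.1 hp
          rw [hZ3, Finset.mem_filter] at ha
          rw [Finset.mem_product]
          exact ⟨Finset.mem_image.2 ⟨a, Finset.mem_filter.2 ⟨ha.1, ha.2.1⟩, rfl⟩,
            Finset.mem_image.2 ⟨a, Finset.mem_filter.2 ⟨ha.1, ha.2.2⟩, rfl⟩⟩
        · rw [Finset.card_product]
          exact Nat.mul_le_mul (classes_le hb hH hX hcl.2.1) (classes_le hb hH hX hcl.2.2)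
      calc Z3.card ≤ θ * (Z3.image fun a => (ov l.pos a o, ov r.pos a o)).card := h5
        _ ≤ θ * (b * H * (b * H)) := Nat.mul_le_mul_left _ h6
        _ = b * H * (b * H) * θ := mul_comm _ _
    have h5 : (Tree.node l r).size * (b * H * (b * H) * θ) =
        l.size * (b * H * (b * H) * θ) + r.size * (b * H * (b * H) * θ) +
        b * H * (b * H) * θ := by
      rw [Tree.size]
      ring
    rw [h5]
    omega

/-- few classes have a large section -/
theorem heavy_le {f : (ι → X) → F} {T Z : Finset (ι → X)} {D : Finset ι} {o : ι → X}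
    {s ν k τ : ℕ} (hs : 1 ≤ s) (hν : 1 ≤ ν) (hrank : RankLe f D s) (hTS : T ⊆ supp f)
    (hd : ∀ a ∈ Z, (sec (supp f) D a).card ≤ ν * (sec T D a).card)
    {dig : ι → X → G} (hinj : Function.Injective (val dig))
    (ih : ∀ v v' : ι → X,
      (supp (cut f D v v')).card ≤ 2 * (s * ν) ^ 3 * (pairSet T D v v').card →
      τ ≤ (supp (cut f D v v')).card → HasCube k ((pairSet T D v v').image (val dig)))
    (hno : ¬ HasCube (k + 1) (T.image (val dig))) :
    ((Z.filter fun a => 2 * (s * ν) ^ 2 * τ < (sec (supp f) D a).card).image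
      fun a => ov D a o).card ≤ s + s * (2 * (s * ν)) := by
  classical
  by_contra hcon
  push Not at hcon
  set J := (Z.filter fun a => 2 * (s * ν) ^ 2 * τ < (sec (supp f) D a).card).image
      fun a => ov D a o with hJ
  have hJprop : ∀ v ∈ J, (∀ i, i ∉ D → v i = o i) ∧
      2 * (s * ν) ^ 2 * τ < (col D o (supp f) v).card ∧
      (col D o (supp f) v).card ≤ ν * (col D o T v).card := by
    intro v hv
    obtain ⟨a, ha, rfl⟩ := Finset.mem_image.1 hv
    rw [Finset.mem_filter] at ha
    rw [card_col, card_col, sec_ov, sec_ov]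
    exact ⟨fun i hi => ov_notMem hi, ha.2, hd a ha.1⟩
  obtain ⟨v, hv, v', hv', hne, j, hj, h1, h2⟩ := exists_dense_pair
    (fun v => col D o (supp f) v) (fun v => col D o T v) hs hν J
    (fun v _ => col_mono hTS v) (fun v hv => (hJprop v hv).2.2)
    (fun v hv => Finset.card_pos.1 (lt_of_le_of_lt (Nat.zero_le _) (hJprop v hv).2.1))
    (fun I _ hI => tri_card_le hrank o hI) hcon.le
  have hκ : 1 ≤ s * ν := Nat.mul_pos hs hν
  have hex : ∃ i ∈ D, v i ≠ v' i := by
    by_contra hall
    push Not at hall
    apply hne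
    funext i
    by_cases hi : i ∈ D
    · exact hall i hi
    · rw [(hJprop v hv).1 i hi, (hJprop v' hv').1 i hi]
  obtain ⟨i, hi, hvv⟩ := hex
  apply hno
  apply hasCube_pair hinj hi hvv
  have hpair : (supp (cut f D v v')).card =
      (col D o (supp f) v ∩ col D o (supp f) v').card := by
    rw [supp_cut, card_pairSet _ D o]
  apply ih
  · rw [hpair, card_pairSet T D o]
    calc (col D o (supp f) v ∩ col D o (supp f) v').card
        ≤ (col D o (supp f) v).card := Finset.card_le_card Finset.inter_subset_left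
      _ ≤ s * ν * (col D o (supp f) j).card := h2
      _ ≤ s * ν * (2 * (s * ν) ^ 2 * (col D o T v ∩ col D o T v').card) :=
          Nat.mul_le_mul_left _ h1
      _ = 2 * (s * ν) ^ 3 * (col D o T v ∩ col D o T v').card := by ring
  · rw [hpair]
    have h3 : (col D o T v ∩ col D o T v').card ≤
        (col D o (supp f) v ∩ col D o (supp f) v').card := by
      apply Finset.card_le_card
      exact Finset.inter_subset_inter (col_mono hTS v) (col_mono hTS v')
    have h4 : 2 * (s * ν) ^ 2 * τ <
        2 * (s * ν) ^ 2 * (col D o (supp f) v ∩ col D o (supp f) v').card :=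
      lt_of_lt_of_le (hJprop j hj).2.1 (h1.trans (Nat.mul_le_mul_left _ h3))
    exact (Nat.lt_of_mul_lt_mul_left h4).le

theorem classLe_of {f : (ι → X) → F} {T Z : Finset (ι → X)} {o : ι → X}
    {s ν k τ : ℕ} (hs : 1 ≤ s) (hν : 1 ≤ ν) (hTS : T ⊆ supp f)
    {dig : ι → X → G} (hinj : Function.Injective (val dig))
    (ih : ∀ (D : Finset ι) (v v' : ι → X),
      (supp (cut f D v v')).card ≤ 2 * (s * ν) ^ 3 * (pairSet T D v v').card →
      τ ≤ (supp (cut f D v v')).card → HasCube k ((pairSet T D v v').image (val dig)))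
    (hno : ¬ HasCube (k + 1) (T.image (val dig))) (t : Tree ι) (hrank : TreeRank f s t)
    (hd : ∀ a ∈ Z, DenseAt (supp f) T ν a t) :
    ClassLe (supp f) Z o (2 * (s * ν) ^ 2 * τ) (s + s * (2 * (s * ν))) t := by
  induction t with
  | leaf i => trivial
  | node l r ihl ihr =>
    exact ⟨heavy_le hs hν hrank.1 hTS (fun a ha => (hd a ha).1) hinj (ih _) hno,
      ihl hrank.2.1 fun a ha => (hd a ha).2.1, ihr hrank.2.2 fun a ha => (hd a ha).2.2⟩

/-- the threshold -/
def thr (M b : ℕ) : ℕ → ℕ → ℕ → ℕ
  | 0, _, _ => 1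
  | k + 1, s, μ => 2 * μ * (M * (b * (s + s * (2 * (s * (2 * M * μ)))) *
      (b * (s + s * (2 * (s * (2 * M * μ))))) *
      (2 * (s * (2 * M * μ)) ^ 2 * thr M b k (s * s) (2 * (s * (2 * M * μ)) ^ 3)))) + 1

theorem thr_pos (M b k s μ : ℕ) : 1 ≤ thr M b k s μ := by
  cases k with
  | zero => exact le_rfl
  | succ k =>
    rw [thr]
    exact Nat.le_add_left _ _

/-- A dense subset of a large support contains a Hilbert cube. -/
theorem hasCube_of_large {M b : ℕ} (hM : 1 ≤ M) (hb : 1 ≤ b) (hX : Fintype.card X ≤ b)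
    {dig : ι → X → G} (hinj : Function.Injective (val dig)) {t : Tree ι} (ht : t.pos = univ)
    (ht1 : 1 ≤ t.size) (htM : t.size ≤ M) (k : ℕ) :
    ∀ (s μ : ℕ) (f : (ι → X) → F) (T : Finset (ι → X)), 1 ≤ s → 1 ≤ μ → TreeRank f s t →
      T ⊆ supp f → (supp f).card ≤ μ * T.card → thr M b k s μ ≤ (supp f).card →
      HasCube k (T.image (val dig)) := by
  classical
  induction k with
  | zero =>
    intro s μ f T hs hμ hf hTS hST hthr
    apply hasCube_zero
    rw [Finset.image_nonempty]
    apply Finset.card_pos.1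
    rw [thr] at hthr
    rcases Nat.eq_zero_or_pos T.card with h0 | h0
    · rw [h0, mul_zero] at hST
      omega
    · exact h0
  | succ k ihk =>
    intro s μ f T hs hμ hf hTS hST hthr
    by_contra hno
    obtain ⟨ν, hν⟩ : ∃ ν, ν = 2 * M * μ := ⟨_, rfl⟩
    have hν1 : 1 ≤ ν := by
      rw [hν]
      exact Nat.mul_pos (by omega) hμ
    have hκ : 1 ≤ s * ν := Nat.mul_pos hs hν1
    obtain ⟨τ, hτ⟩ : ∃ τ, τ = thr M b k (s * s) (2 * (s * ν) ^ 3) := ⟨_, rfl⟩
    have hτ1 : 1 ≤ τ := by
      rw [hτ]
      exact thr_pos _ _ _ _ _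
    set Z := T.filter fun a => DenseAt (supp f) T ν a t with hZ
    have hZcard : T.card ≤ 2 * Z.card := by
      have h1 := not_dense_le (supp f) T ν t
      have h2 := Finset.card_filter_add_card_filter_not (s := T)
        (fun a => DenseAt (supp f) T ν a t)
      have h3 : ν * (T.filter fun a => ¬ DenseAt (supp f) T ν a t).card ≤ M * μ * T.card :=
        calc ν * (T.filter fun a => ¬ DenseAt (supp f) T ν a t).card
            ≤ t.size * (supp f).card := h1
          _ ≤ M * (μ * T.card) := Nat.mul_le_mul htM hST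
          _ = M * μ * T.card := by ring
      have h4 : M * μ * (2 * (T.filter fun a => ¬ DenseAt (supp f) T ν a t).card) ≤
          M * μ * T.card := by
        rw [hν] at h3
        calc _ = 2 * M * μ * (T.filter fun a => ¬ DenseAt (supp f) T ν a t).card := by
              rw [hν]
              ring
          _ ≤ _ := by
              rw [hν]
              exact h3
      have h5 := Nat.le_of_mul_le_mul_left h4 (Nat.mul_pos hM hμ)
      rw [← hZ] at h2
      omega
    have hSZ : (supp f).card ≤ 2 * μ * Z.card := by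
      calc (supp f).card ≤ μ * T.card := hST
        _ ≤ μ * (2 * Z.card) := Nat.mul_le_mul_left _ hZcard
        _ = 2 * μ * Z.card := by ring
    have hSpos : 1 ≤ (supp f).card := (thr_pos _ _ _ _ _).trans hthr
    obtain ⟨o, -⟩ := Finset.card_pos.1 hSpos
    have hcl : ClassLe (supp f) Z o (2 * (s * ν) ^ 2 * τ) (s + s * (2 * (s * ν))) t := by
      apply classLe_of hs hν1 hTS hinj (k := k) _ hno t hf
      · intro a ha
        exact (Finset.mem_filter.1 ha).2
      · intro D v v' h1 h2
        refine ihk (s * s) (2 * (s * ν) ^ 3) (cut f D v v') (pairSet T D v v')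
          (Nat.mul_pos hs hs) ?_ (treeRank_cut hf D v v') ?_ h1 (by rw [← hτ]; exact h2)
        · have : 0 < (s * ν) ^ 3 := Nat.pow_pos hκ
          omega
        · rw [supp_cut]
          intro w hw
          rw [pairSet, Finset.mem_filter] at hw ⊢
          exact ⟨hTS hw.1, hw.2.1, hTS hw.2.2⟩
    have hlight : ∀ a ∈ Z, Light (supp f) (2 * (s * ν) ^ 2 * τ) a t := by
      intro a _
      cases t with
      | leaf i =>
        rw [Tree.size] at ht1
        omega
      | node l r =>
        have hpos : l.pos ∪ r.pos = univ := ht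
        have h1 : (sec (supp f) (l.pos ∪ r.pos) a).card ≤ 1 := by
          rw [Finset.card_le_one]
          intro w hw w' hw'
          rw [sec, Finset.mem_filter, hpos] at hw hw'
          funext i
          rw [hw.2 i (Finset.mem_univ i), hw'.2 i (Finset.mem_univ i)]
        refine le_trans h1 ?_
        have : 0 < (s * ν) ^ 2 * τ := Nat.mul_pos (Nat.pow_pos hκ) hτ1
        have e : 2 * (s * ν) ^ 2 * τ = 2 * ((s * ν) ^ 2 * τ) := by ring
        omega
    have hfin := light_le hb (by omega) hX t Z ((Finset.filter_subset _ _).trans hTS) hcl hlight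
    have hfin2 : (supp f).card ≤ 2 * μ * (M * (b * (s + s * (2 * (s * ν))) *
        (b * (s + s * (2 * (s * ν)))) * (2 * (s * ν) ^ 2 * τ))) :=
      hSZ.trans (Nat.mul_le_mul_left _ (hfin.trans (Nat.mul_le_mul_right _ htM)))
    rw [thr] at hthr
    rw [hτ, hν] at hfin2
    omega

end Pool.Agent.Helper29.LR
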