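import Pool.Agent.Helper29.LR.Final

/-!
Sets of words with small support rank at all nodes of a tree: the function and the field may
depend on the node.
-/

open Finset
open scoped Pointwise

namespace Pool.Agent.Helper29.LR

open Pool.Agent.Helper82.CF Pool.Agent.Helper29.RC

variable {ι X G : Type*} [Fintype ι] [DecidableEq ι] [Fintype X] [DecidableEq X]
  [AddCommGroup G] [DecidableEq G]

/-- some function with support `S`, over some field, is a sum of `s` products of a function of the
digits in `D` and a function of the other digits -/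
def Low (S : Finset (ι → X)) (D : Finset ι) (s : ℕ) : Prop :=
  ∃ (K : Type) (_ : Field K) (f : (ι → X) → K), (∀ w, w ∈ S ↔ f w ≠ 0) ∧ RankLe f D s

/-- `Low` at all inner nodes -/
def TreeLow (S : Finset (ι → X)) (s : ℕ) : Tree ι → Prop
  | .leaf _ => True
  | .node l r => Low S (l.pos ∪ r.pos) s ∧ TreeLow S s l ∧ TreeLow S s r

theorem Low.tri {S : Finset (ι → X)} {D : Finset ι} {s : ℕ} (h : Low S D s) (o : ι → X)
    {I : Finset (ι → X)} (hI : Tri (fun v => col D o S v) I) : I.card ≤ s := by
  obtain ⟨K, _, f, hf, hr⟩ := h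
  have e : S = supp f := by
    ext w
    rw [mem_supp, hf]
  rw [e] at hI
  exact tri_card_le hr o hI

theorem Low.pair {S : Finset (ι → X)} {E : Finset ι} {s : ℕ} (h : Low S E s) (D : Finset ι)
    (v v' : ι → X) : Low (pairSet S D v v') E (s * s) := by
  obtain ⟨K, _, f, hf, hr⟩ := h
  refine ⟨K, inferInstance, cut f D v v', ?_, rankLe_cut hr D v v'⟩
  intro w
  rw [cut_ne, pairSet, Finset.mem_filter, hf, hf]
  tauto

theorem TreeLow.pair {S : Finset (ι → X)} {s : ℕ} {t : Tree ι} (h : TreeLow S s t)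
    (D : Finset ι) (v v' : ι → X) : TreeLow (pairSet S D v v') (s * s) t := by
  induction t with
  | leaf i => trivial
  | node l r ihl ihr => exact ⟨h.1.pair D v v', ihl h.2.1, ihr h.2.2⟩

/-- few classes have a large section -/
theorem heavy_node_le {S T Z : Finset (ι → X)} {D : Finset ι} {o : ι → X}
    {s ν k τ : ℕ} (hs : 1 ≤ s) (hν : 1 ≤ ν) (hrank : Low S D s) (hTS : T ⊆ S)
    (hd : ∀ a ∈ Z, (sec S D a).card ≤ ν * (sec T D a).card)
    {dig : ι → X → G} (hinj : Function.Injective (val dig))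
    (ih : ∀ v v' : ι → X,
      (pairSet S D v v').card ≤ 2 * (s * ν) ^ 3 * (pairSet T D v v').card →
      τ ≤ (pairSet S D v v').card → HasCube k ((pairSet T D v v').image (val dig)))
    (hno : ¬ HasCube (k + 1) (T.image (val dig))) :
    ((Z.filter fun a => 2 * (s * ν) ^ 2 * τ < (sec S D a).card).image
      fun a => ov D a o).card ≤ s + s * (2 * (s * ν)) := by
  classical
  by_contra hcon
  push Not at hcon
  set J := (Z.filter fun a => 2 * (s * ν) ^ 2 * τ < (sec S D a).card).image
      fun a => ov D a o with hJ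
  have hJprop : ∀ v ∈ J, (∀ i, i ∉ D → v i = o i) ∧
      2 * (s * ν) ^ 2 * τ < (col D o S v).card ∧
      (col D o S v).card ≤ ν * (col D o T v).card := by
    intro v hv
    obtain ⟨a, ha, rfl⟩ := Finset.mem_image.1 hv
    rw [Finset.mem_filter] at ha
    rw [card_col, card_col, sec_ov, sec_ov]
    exact ⟨fun i hi => ov_notMem hi, ha.2, hd a ha.1⟩
  obtain ⟨v, hv, v', hv', hne, j, hj, h1, h2⟩ := exists_dense_pair
    (fun v => col D o S v) (fun v => col D o T v) hs hν J
    (fun v _ => col_mono hTS v) (fun v hv => (hJprop v hv).2.2)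
    (fun v hv => Finset.card_pos.1 (lt_of_le_of_lt (Nat.zero_le _) (hJprop v hv).2.1))
    (fun I _ hI => hrank.tri o hI) hcon.le
  have hκ : 1 ≤ s * ν := Nat.mul_pos hs hν
  have hex : ∃ i ∈ D, v i ≠ v' i := by
    by_contra hall
    push Not at hall
    apply hne
    funext i
    by_cases hi : i ∈ D
    · exact hall i hi
    · rw [(hJprop v hv).1 i hi, (hJprop v' hv').1 i hi]
  obtain ⟨i, hi, hvv⟩ := hex
  apply hno
  apply hasCube_pair hinj hi hvv
  have hpair : (pairSet S D v v').card = (col D o S v ∩ col D o S v').card :=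
    card_pairSet _ D o _ _
  apply ih
  · rw [hpair, card_pairSet T D o]
    calc (col D o S v ∩ col D o S v').card
        ≤ (col D o S v).card := Finset.card_le_card Finset.inter_subset_left
      _ ≤ s * ν * (col D o S j).card := h2
      _ ≤ s * ν * (2 * (s * ν) ^ 2 * (col D o T v ∩ col D o T v').card) :=
          Nat.mul_le_mul_left _ h1
      _ = 2 * (s * ν) ^ 3 * (col D o T v ∩ col D o T v').card := by ring
  · rw [hpair]
    have h3 : (col D o T v ∩ col D o T v').card ≤ (col D o S v ∩ col D o S v').card :=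
      Finset.card_le_card (Finset.inter_subset_inter (col_mono hTS v) (col_mono hTS v'))
    have h4 : 2 * (s * ν) ^ 2 * τ <
        2 * (s * ν) ^ 2 * (col D o S v ∩ col D o S v').card :=
      lt_of_lt_of_le (hJprop j hj).2.1 (h1.trans (Nat.mul_le_mul_left _ h3))
    exact (Nat.lt_of_mul_lt_mul_left h4).le

theorem classLe_of_low {S T Z : Finset (ι → X)} {o : ι → X}
    {s ν k τ : ℕ} (hs : 1 ≤ s) (hν : 1 ≤ ν) (hTS : T ⊆ S)
    {dig : ι → X → G} (hinj : Function.Injective (val dig))
    (ih : ∀ (D : Finset ι) (v v' : ι → X),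
      (pairSet S D v v').card ≤ 2 * (s * ν) ^ 3 * (pairSet T D v v').card →
      τ ≤ (pairSet S D v v').card → HasCube k ((pairSet T D v v').image (val dig)))
    (hno : ¬ HasCube (k + 1) (T.image (val dig))) (t : Tree ι) (hrank : TreeLow S s t)
    (hd : ∀ a ∈ Z, DenseAt S T ν a t) :
    ClassLe S Z o (2 * (s * ν) ^ 2 * τ) (s + s * (2 * (s * ν))) t := by
  induction t with
  | leaf i => trivial
  | node l r ihl ihr =>
    exact ⟨heavy_node_le hs hν hrank.1 hTS (fun a ha => (hd a ha).1) hinj (ih _) hno,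
      ihl hrank.2.1 fun a ha => (hd a ha).2.1, ihr hrank.2.2 fun a ha => (hd a ha).2.2⟩

/-- A dense subset of a large set of small support rank contains a Hilbert cube. -/
theorem hasCube_of_low {M b : ℕ} (hM : 1 ≤ M) (hb : 1 ≤ b) (hX : Fintype.card X ≤ b)
    {dig : ι → X → G} (hinj : Function.Injective (val dig)) {t : Tree ι} (ht : t.pos = univ)
    (ht1 : 1 ≤ t.size) (htM : t.size ≤ M) (k : ℕ) :
    ∀ (s μ : ℕ) (S T : Finset (ι → X)), 1 ≤ s → 1 ≤ μ → TreeLow S s t →
      T ⊆ S → S.card ≤ μ * T.card → thr M b k s μ ≤ S.card →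
      HasCube k (T.image (val dig)) := by
  classical
  induction k with
  | zero =>
    intro s μ S T hs hμ hf hTS hST hthr
    apply hasCube_zero
    rw [Finset.image_nonempty]
    apply Finset.card_pos.1
    rw [thr] at hthr
    rcases Nat.eq_zero_or_pos T.card with h0 | h0
    · rw [h0, mul_zero] at hST
      omega
    · exact h0
  | succ k ihk =>
    intro s μ S T hs hμ hf hTS hST hthr
    by_contra hno
    obtain ⟨ν, hν⟩ : ∃ ν, ν = 2 * M * μ := ⟨_, rfl⟩
    have hν1 : 1 ≤ ν := by
      rw [hν]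
      exact Nat.mul_pos (by omega) hμ
    have hκ : 1 ≤ s * ν := Nat.mul_pos hs hν1
    obtain ⟨τ, hτ⟩ : ∃ τ, τ = thr M b k (s * s) (2 * (s * ν) ^ 3) := ⟨_, rfl⟩
    have hτ1 : 1 ≤ τ := by
      rw [hτ]
      exact thr_pos _ _ _ _ _
    set Z := T.filter fun a => DenseAt S T ν a t with hZ
    have hZcard : T.card ≤ 2 * Z.card := by
      have h1 := not_dense_le S T ν t
      have h2 := Finset.card_filter_add_card_filter_not (s := T)
        (fun a => DenseAt S T ν a t)
      have h4 : M * μ * (2 * (T.filter fun a => ¬ DenseAt S T ν a t).card) ≤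
          M * μ * T.card := by
        calc M * μ * (2 * (T.filter fun a => ¬ DenseAt S T ν a t).card)
            = ν * (T.filter fun a => ¬ DenseAt S T ν a t).card := by
              rw [hν]
              ring
          _ ≤ t.size * S.card := h1
          _ ≤ M * (μ * T.card) := Nat.mul_le_mul htM hST
          _ = M * μ * T.card := by ring
      have h5 := Nat.le_of_mul_le_mul_left h4 (Nat.mul_pos hM hμ)
      rw [← hZ] at h2
      omega
    have hSZ : S.card ≤ 2 * μ * Z.card := by
      calc S.card ≤ μ * T.card := hST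
        _ ≤ μ * (2 * Z.card) := Nat.mul_le_mul_left _ hZcard
        _ = 2 * μ * Z.card := by ring
    have hSpos : 1 ≤ S.card := (thr_pos _ _ _ _ _).trans hthr
    obtain ⟨o, -⟩ := Finset.card_pos.1 hSpos
    have hcl : ClassLe S Z o (2 * (s * ν) ^ 2 * τ) (s + s * (2 * (s * ν))) t := by
      apply classLe_of_low hs hν1 hTS hinj (k := k) _ hno t hf
      · intro a ha
        exact (Finset.mem_filter.1 ha).2
      · intro D v v' h1 h2
        refine ihk (s * s) (2 * (s * ν) ^ 3) (pairSet S D v v') (pairSet T D v v')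
          (Nat.mul_pos hs hs) ?_ (hf.pair D v v') ?_ h1 (by rw [← hτ]; exact h2)
        · have : 0 < (s * ν) ^ 3 := Nat.pow_pos hκ
          omega
        · intro w hw
          rw [pairSet, Finset.mem_filter] at hw ⊢
          exact ⟨hTS hw.1, hw.2.1, hTS hw.2.2⟩
    have hlight : ∀ a ∈ Z, Light S (2 * (s * ν) ^ 2 * τ) a t := by
      intro a _
      cases t with
      | leaf i =>
        rw [Tree.size] at ht1
        omega
      | node l r =>
        have hpos : l.pos ∪ r.pos = univ := ht
        have h1 : (sec S (l.pos ∪ r.pos) a).card ≤ 1 := by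
          rw [Finset.card_le_one]
          intro w hw w' hw'
          rw [sec, Finset.mem_filter, hpos] at hw hw'
          funext i
          rw [hw.2 i (Finset.mem_univ i), hw'.2 i (Finset.mem_univ i)]
        refine le_trans h1 ?_
        have : 0 < (s * ν) ^ 2 * τ := Nat.mul_pos (Nat.pow_pos hκ) hτ1
        have e : 2 * (s * ν) ^ 2 * τ = 2 * ((s * ν) ^ 2 * τ) := by ring
        omega
    have hfin := light_le hb (by omega) hX t Z ((Finset.filter_subset _ _).trans hTS) hcl hlight
    have hfin2 : S.card ≤ 2 * μ * (M * (b * (s + s * (2 * (s * ν))) *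
        (b * (s + s * (2 * (s * ν)))) * (2 * (s * ν) ^ 2 * τ))) :=
      hSZ.trans (Nat.mul_le_mul_left _ (hfin.trans (Nat.mul_le_mul_right _ htM)))
    rw [thr] at hthr
    rw [hτ, hν] at hfin2
    omega

/-- Robust form for support ranks. -/
theorem card_le_of_low {b : ℕ} (hb : 1 ≤ b) (hX : Fintype.card X ≤ b)
    {dig : ι → X → G} (hinj : Function.Injective (val dig)) {t : Tree ι} (ht : t.pos = univ)
    {s : ℕ} (hs : 1 ≤ s) {S T : Finset (ι → X)} (hf : TreeLow S s t)
    (hT : T ⊆ S) {k : ℕ} (hno : ¬ HasCube k (T.image (val dig))) :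
    (T.card : ℝ) ≤ 32 * (t.size + 1) * b * s *
      (S.card : ℝ) ^ (1 - 1 / (2 * (5 : ℝ) ^ k)) := by
  classical
  have h := real_formE (C := 16 * (t.size + 1) * b) (E := 2 * 5 ^ k) (s := s)
    (N := S.card) (t := T.card) (by have : 0 < 5 ^ k := Nat.pow_pos (by norm_num); omega)
    (Finset.card_le_card hT) ?_
  · refine h.trans (le_of_eq ?_)
    push_cast
    ring
  · intro μ hμ hNT
    have hQ : 16 * b ≤ 16 * (t.size + 1) * b * (s * μ) := by
      calc 16 * b = 16 * 1 * b * (1 * 1) := by ring
        _ ≤ 16 * (t.size + 1) * b * (s * μ) := by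
            refine Nat.mul_le_mul (Nat.mul_le_mul_right _ (Nat.mul_le_mul_left _ (by omega)))
              (Nat.mul_le_mul hs hμ)
    have hQ1 : 1 < 16 * (t.size + 1) * b * (s * μ) := by omega
    by_contra hcon
    push Not at hcon
    rcases Nat.eq_zero_or_pos t.size with h0 | h0
    · have h1 : S.card ≤ b := by
        cases t with
        | node l r =>
          rw [Tree.size] at h0
          omega
        | leaf i =>
          refine le_trans ?_ hX
          rw [← Finset.card_univ]
          refine Finset.card_le_card_of_injOn (fun w => w i) (fun _ _ => Finset.mem_coe.2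
            (Finset.mem_univ _)) ?_
          intro w _ w' _ e
          simp only at e
          funext j
          have hj : j ∈ (Tree.leaf i).pos := by
            rw [ht]
            exact Finset.mem_univ _
          rw [Tree.pos, Finset.mem_singleton] at hj
          rw [hj, e]
      have h2 : (16 * (t.size + 1) * b * (s * μ)) ^ 1 ≤
          (16 * (t.size + 1) * b * (s * μ)) ^ (2 * 5 ^ k) :=
        Nat.pow_le_pow_right (by omega)
          (by have : 0 < 5 ^ k := Nat.pow_pos (by norm_num); omega)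
      rw [pow_one] at h2
      omega
    · apply hno
      refine hasCube_of_low (M := t.size + 1) (by omega) hb hX hinj ht h0 (by omega) k s μ S T
        hs hμ hf hT hNT ?_
      refine (thr_le (by omega) hb k s μ hs hμ).trans (le_trans ?_ hcon)
      exact Nat.pow_le_pow_right (by omega) (by have := ee_le k; omega)

/-- **Numbers.** -/
theorem low_numbers {A : Set ℕ} {x k : ℕ} (hg : ∀ m ≤ 2 * x, rep A m < 2 ^ k)
    {dig : ι → X → ℤ} (hinj : Function.Injective fun w : ι → X => ∑ i, dig i (w i))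
    {t : Tree ι} (ht : t.pos = univ) {s : ℕ} (hs : 1 ≤ s) {S : Finset (ι → X)}
    (hf : TreeLow S s t) :
    (({w | w ∈ S ∧ ∃ a ∈ A, a ≤ x ∧ ∑ i, dig i (w i) = (a : ℤ)} : Set (ι → X)).ncard : ℝ) ≤
      32 * (t.size + 1) * Fintype.card X * s * (S.card : ℝ) ^ (1 - 1 / (2 * (5 : ℝ) ^ k)) := by
  classical
  set T : Finset (ι → X) := S.filter fun w => ∃ a ∈ A, a ≤ x ∧ ∑ i, dig i (w i) = (a : ℤ) with hT
  have hno : ¬ HasCube k (T.image (val dig)) := by
    apply not_hasCube (A := A) (x := x) (g := 2 ^ k - 1)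
    · intro m hm
      have := hg m hm
      omega
    · have : 0 < 2 ^ k := Nat.pow_pos (by norm_num)
      omega
    · intro z hz
      obtain ⟨w, hw, rfl⟩ := Finset.mem_image.1 hz
      rw [hT, Finset.mem_filter] at hw
      obtain ⟨-, a, ha, hax, e⟩ := hw
      exact ⟨a, ha, hax, e.symm⟩
  have h1 : ({w | w ∈ S ∧ ∃ a ∈ A, a ≤ x ∧ ∑ i, dig i (w i) = (a : ℤ)} :
      Set (ι → X)).ncard = T.card := by
    rw [← Set.ncard_coe_finset]
    congr 1
    ext w
    simp [hT]
  rw [h1]
  rcases Nat.eq_zero_or_pos (Fintype.card X) with h0 | h0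
  · have hX : IsEmpty X := Fintype.card_eq_zero_iff.1 h0
    have hT0 : T.card = 0 := by
      rw [Finset.card_eq_zero, Finset.eq_empty_iff_forall_notMem]
      intro w _
      obtain ⟨i, _⟩ := t.pos_nonempty
      exact hX.elim (w i)
    rw [hT0, Nat.cast_zero]
    positivity
  · exact card_le_of_low h0 le_rfl (dig := dig) hinj ht hs hf (Finset.filter_subset _ _) hno

/-- **Pairs.** -/
theorem low_pairs {A : Set ℕ} {x k : ℕ} (hg : ∀ m ≤ 2 * x, rep A m < 2 ^ k)
    {dig : ι → X → ℤ × ℤ} (hinj : Function.Injective fun w : ι → X => ∑ i, dig i (w i))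
    {t : Tree ι} (ht : t.pos = univ) {s : ℕ} (hs : 1 ≤ s) {S : Finset (ι → X)}
    (hf : TreeLow S s t) :
    (({w | w ∈ S ∧ ∃ a ∈ A, ∃ a' ∈ A, a ≤ x ∧ a' ≤ x ∧
      ∑ i, dig i (w i) = ((a : ℤ), (a' : ℤ))} : Set (ι → X)).ncard : ℝ) ≤
      32 * (t.size + 1) * Fintype.card X * s *
        (S.card : ℝ) ^ (1 - 1 / (2 * (5 : ℝ) ^ (2 * k))) := by
  classical
  set T : Finset (ι → X) := S.filter fun w => ∃ a ∈ A, ∃ a' ∈ A, a ≤ x ∧ a' ≤ x ∧
    ∑ i, dig i (w i) = ((a : ℤ), (a' : ℤ)) with hT
  have hno : ¬ HasCube (2 * k) (T.image (val dig)) := by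
    apply not_hasCube_pair (A := A) (x := x) (g := 2 ^ k - 1)
    · intro m hm
      have := hg m hm
      omega
    · have : 0 < 2 ^ k := Nat.pow_pos (by norm_num)
      omega
    · intro z hz
      obtain ⟨w, hw, rfl⟩ := Finset.mem_image.1 hz
      rw [hT, Finset.mem_filter] at hw
      obtain ⟨-, a, ha, a', ha', hax, hax', e⟩ := hw
      unfold val
      rw [e]
      exact ⟨⟨a, ha, hax, rfl⟩, a', ha', hax', rfl⟩
  have h1 : ({w | w ∈ S ∧ ∃ a ∈ A, ∃ a' ∈ A, a ≤ x ∧ a' ≤ x ∧
      ∑ i, dig i (w i) = ((a : ℤ), (a' : ℤ))} : Set (ι → X)).ncard = T.card := by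
    rw [← Set.ncard_coe_finset]
    congr 1
    ext w
    simp [hT]
  rw [h1]
  rcases Nat.eq_zero_or_pos (Fintype.card X) with h0 | h0
  · have hX : IsEmpty X := Fintype.card_eq_zero_iff.1 h0
    have hT0 : T.card = 0 := by
      rw [Finset.card_eq_zero, Finset.eq_empty_iff_forall_notMem]
      intro w _
      obtain ⟨i, _⟩ := t.pos_nonempty
      exact hX.elim (w i)
    rw [hT0, Nat.cast_zero]
    positivity
  · exact card_le_of_low h0 le_rfl (dig := dig) hinj ht hs hf (Finset.filter_subset _ _) hno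

end Pool.Agent.Helper29.LR
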