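import Pool.Agent.Helper29.LR.Comb

/-!
Two of the dense subsets meet in a dense set: the economic form.
-/

open Finset

namespace Pool.Agent.Helper29.LR

variable {R U : Type*} [DecidableEq R] [DecidableEq U]

/-- many dense subsets: two of them have an intersection which is large in one of them -/
theorem exists_two_min {J : Finset R} {Y : Finset U} (Z : R → Finset U) {κ : ℕ} (hκ : 1 ≤ κ)
    (hJ : 2 * κ ≤ J.card) (hZ : ∀ i ∈ J, Z i ⊆ Y) (hd : ∀ i ∈ J, Y.card ≤ κ * (Z i).card)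
    (hY : Y.Nonempty) :
    ∃ i ∈ J, ∃ i' ∈ J, i ≠ i' ∧ (Z i).card ≤ 2 * κ * (Z i ∩ Z i').card := by
  by_contra hcon
  push Not at hcon
  set d : U → ℕ := fun y => (J.filter fun i => y ∈ Z i).card with hdd
  have h1 : ∑ i ∈ J, (Z i).card = ∑ y ∈ Y, d y := by
    have h := Finset.sum_card_bipartiteAbove_eq_sum_card_bipartiteBelow
      (s := J) (t := Y) (fun i y => y ∈ Z i)
    have e1 : ∀ i ∈ J, (Y.filter fun y => y ∈ Z i) = Z i := by
      intro i hi
      ext y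
      rw [Finset.mem_filter]
      exact ⟨fun h => h.2, fun h => ⟨hZ i hi h, h⟩⟩
    rw [← Finset.sum_congr rfl fun i hi => congrArg Finset.card (e1 i hi)]
    exact h
  have h2 : ∑ w ∈ J.offDiag, (Z w.1 ∩ Z w.2).card = ∑ y ∈ Y, (d y * d y - d y) := by
    have h := Finset.sum_card_bipartiteAbove_eq_sum_card_bipartiteBelow
      (s := J.offDiag) (t := Y) (fun w y => y ∈ Z w.1 ∧ y ∈ Z w.2)
    have e1 : ∀ w ∈ J.offDiag, (Y.filter fun y => y ∈ Z w.1 ∧ y ∈ Z w.2) = Z w.1 ∩ Z w.2 := by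
      intro w hw
      rw [Finset.mem_offDiag] at hw
      ext y
      rw [Finset.mem_filter, Finset.mem_inter]
      exact ⟨fun h => h.2, fun h => ⟨hZ _ hw.1 h.1, h⟩⟩
    have e2 : ∀ y, (J.offDiag.filter fun w => y ∈ Z w.1 ∧ y ∈ Z w.2).card =
        d y * d y - d y := by
      intro y
      have : (J.offDiag.filter fun w => y ∈ Z w.1 ∧ y ∈ Z w.2) =
          (J.filter fun i => y ∈ Z i).offDiag := by
        ext w
        simp only [Finset.mem_filter, Finset.mem_offDiag]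
        tauto
      rw [this, Finset.offDiag_card]
    rw [← Finset.sum_congr rfl fun w hw => congrArg Finset.card (e1 w hw),
      ← Finset.sum_congr rfl fun y _ => e2 y]
    exact h
  -- Cauchy
  have h3 : (∑ i ∈ J, (Z i).card) ^ 2 ≤
      Y.card * (∑ i ∈ J, (Z i).card + ∑ w ∈ J.offDiag, (Z w.1 ∩ Z w.2).card) := by
    rw [h2, h1, ← Finset.sum_add_distrib]
    refine (sq_sum_le_card_mul_sum_sq (s := Y) (f := d)).trans (le_of_eq ?_)
    congr 1
    apply Finset.sum_congr rfl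
    intro y _
    have : d y ≤ d y * d y := Nat.le_mul_self _
    rw [sq]
    omega
  have h4 : J.card * Y.card ≤ κ * ∑ i ∈ J, (Z i).card := by
    rw [Finset.mul_sum]
    calc J.card * Y.card = ∑ _i ∈ J, Y.card := by rw [Finset.sum_const, smul_eq_mul]
      _ ≤ ∑ i ∈ J, κ * (Z i).card := Finset.sum_le_sum fun i hi => hd i hi
  have h5 : 2 * κ * ∑ w ∈ J.offDiag, (Z w.1 ∩ Z w.2).card + ∑ i ∈ J, (Z i).card ≤
      J.card * ∑ i ∈ J, (Z i).card := by
    have e1 : ∑ w ∈ J ×ˢ J, (Z w.1).card = J.card * ∑ i ∈ J, (Z i).card := by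
      rw [Finset.sum_product]
      simp only [Finset.sum_const, smul_eq_mul]
      rw [Finset.mul_sum]
    have e2 : ∑ w ∈ J ×ˢ J, (Z w.1).card =
        ∑ w ∈ J.offDiag, (Z w.1).card + ∑ i ∈ J, (Z i).card := by
      rw [← Finset.diag_union_offDiag, Finset.sum_union (Finset.disjoint_diag_offDiag J),
        Finset.sum_diag, add_comm]
    rw [← e1, e2, Finset.mul_sum]
    apply Nat.add_le_add_right
    apply Finset.sum_le_sum
    intro w hw
    rw [Finset.mem_offDiag] at hw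
    exact (hcon w.1 hw.1 w.2 hw.2.1 hw.2.2).le
  have hYpos : 0 < Y.card := Finset.card_pos.2 hY
  obtain ⟨m, hm⟩ : ∃ m, m = ∑ i ∈ J, (Z i).card := ⟨_, rfl⟩
  obtain ⟨P, hP⟩ : ∃ P, P = ∑ w ∈ J.offDiag, (Z w.1 ∩ Z w.2).card := ⟨_, rfl⟩
  obtain ⟨n, hn⟩ : ∃ n, n = J.card := ⟨_, rfl⟩
  obtain ⟨y, hy⟩ : ∃ y, y = Y.card := ⟨_, rfl⟩
  rw [← hm, ← hP, ← hy] at h3
  rw [← hm, ← hn, ← hy] at h4
  rw [← hm, ← hP, ← hn] at h5
  rw [← hn] at hJ
  rw [← hy] at hYpos
  have hmpos : 0 < m := by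
    rcases Nat.eq_zero_or_pos m with h0 | h0
    · rw [h0, mul_zero] at h4
      have : 0 < n * y := Nat.mul_pos (by omega) hYpos
      omega
    · exact h0
  -- `2 κ m ≤ y (2 κ + n - 1)`
  have h6 : m * (2 * κ * m + y) ≤ m * (y * (2 * κ + n)) := by
    have h7 : 2 * κ * m ^ 2 ≤ 2 * κ * (y * (m + P)) := Nat.mul_le_mul_left _ h3
    have h8 : y * (2 * κ * P + m) ≤ y * (n * m) := Nat.mul_le_mul_left _ h5
    nlinarith
  have h7 := Nat.le_of_mul_le_mul_left h6 hmpos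
  have h8 : 2 * (n * y) ≤ 2 * (κ * m) := Nat.mul_le_mul_left _ h4
  have h9 : y * (2 * n + 1) ≤ y * (2 * κ + n) := by nlinarith
  have h10 := Nat.le_of_mul_le_mul_left h9 hYpos
  omega

/-- The combination. -/
theorem exists_dense_pair_min (C T : R → Finset U) {s ν : ℕ} (hs : 1 ≤ s) (hν : 1 ≤ ν)
    (J : Finset R) (hTC : ∀ v ∈ J, T v ⊆ C v) (hC : ∀ v ∈ J, (C v).card ≤ ν * (T v).card)
    (hne : ∀ v ∈ J, (C v).Nonempty) (htri : ∀ I ⊆ J, Tri C I → I.card ≤ s)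
    (hJ : s + s * (2 * (s * ν)) ≤ J.card) :
    ∃ v ∈ J, ∃ v' ∈ J, v ≠ v' ∧ (C v).card ≤ 2 * (s * ν) ^ 2 * (T v ∩ T v').card := by
  obtain ⟨I, hIJ, hI, hI2⟩ := exists_tri C T J hTC hC htri
  have hIs := htri I hIJ hI
  have hκ : 1 ≤ s * ν := Nat.mul_pos hs hν
  have hcard : s * (2 * (s * ν)) ≤ (J \ I).card := by
    rw [Finset.card_sdiff_of_subset hIJ]
    omega
  have hch : ∀ i, ∃ j, i ∈ J \ I → j ∈ I ∧ (C j).card ≤ (C i).card ∧
      (C i).card ≤ s * ν * (T i ∩ C j).card := by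
    intro i
    by_cases hi : i ∈ J \ I
    · rw [Finset.mem_sdiff] at hi
      obtain ⟨j, h1, h2, h3⟩ := hI2 i hi.1 hi.2 (hne i hi.1)
      exact ⟨j, fun _ => ⟨h1, h2, h3⟩⟩
    · exact ⟨i, fun h => absurd h hi⟩
  choose φ hφ using hch
  have hIne : I.Nonempty := by
    have h1 : 0 < (J \ I).card := lt_of_lt_of_le (Nat.mul_pos hs (by omega)) hcard
    obtain ⟨i, hi⟩ := Finset.card_pos.1 h1
    exact ⟨φ i, (hφ i hi).1⟩
  obtain ⟨j, hj, hfib⟩ := Finset.exists_le_card_fiber_of_mul_le_card_of_maps_to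
    (s := J \ I) (t := I) (f := φ) (n := 2 * (s * ν)) (fun i hi => (hφ i hi).1) hIne
    ((Nat.mul_le_mul_right _ hIs).trans hcard)
  set J' := (J \ I).filter fun i => φ i = j with hJ'
  have hprop : ∀ i ∈ J', i ∈ J ∧ (C j).card ≤ (C i).card ∧
      (C i).card ≤ s * ν * (T i ∩ C j).card := by
    intro i hi
    rw [hJ', Finset.mem_filter] at hi
    obtain ⟨h1, h2, h3⟩ := hφ i hi.1
    rw [hi.2] at h2 h3
    exact ⟨(Finset.mem_sdiff.1 hi.1).1, h2, h3⟩
  obtain ⟨i, hi, i', hi', hne', hle⟩ := exists_two_min (Y := C j) (fun i => T i ∩ C j) hκ hfib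
    (fun i _ => Finset.inter_subset_right)
    (fun i hi => (hprop i hi).2.1.trans (hprop i hi).2.2) (hne j (hIJ hj))
  refine ⟨i, (hprop i hi).1, i', (hprop i' hi').1, hne', ?_⟩
  have h1 : ((T i ∩ C j) ∩ (T i' ∩ C j)).card ≤ (T i ∩ T i').card := by
    apply Finset.card_le_card
    intro u hu
    rw [Finset.mem_inter, Finset.mem_inter, Finset.mem_inter] at hu
    exact Finset.mem_inter.2 ⟨hu.1.1, hu.2.1⟩
  calc (C i).card ≤ s * ν * (T i ∩ C j).card := (hprop i hi).2.2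
    _ ≤ s * ν * (2 * (s * ν) * ((T i ∩ C j) ∩ (T i' ∩ C j)).card) := Nat.mul_le_mul_left _ hle
    _ ≤ s * ν * (2 * (s * ν) * (T i ∩ T i').card) :=
        Nat.mul_le_mul_left _ (Nat.mul_le_mul_left _ h1)
    _ = 2 * (s * ν) ^ 2 * (T i ∩ T i').card := by ring

end Pool.Agent.Helper29.LR
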