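import Pool.Agent.Helper29.LR.Node
import Pool.Agent.Helper29.LR.Pair

/-!
Sets of words with small support rank at all nodes of a tree: the robust form with a better
exponent.
-/

open Finset
open scoped Pointwise

namespace Pool.Agent.Helper29.LR

open Pool.Agent.Helper82.CF Pool.Agent.Helper29.RC

variable {ι X G : Type*} [Fintype ι] [DecidableEq ι] [Fintype X] [DecidableEq X]
  [AddCommGroup G] [DecidableEq G]

/-- the threshold -/
def thr2 (M b : ℕ) : ℕ → ℕ → ℕ → ℕ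
  | 0, _, _ => 1
  | k + 1, s, μ => 2 * μ * (M * (b * (s + s * (2 * (s * (2 * M * μ)))) *
      (b * (s + s * (2 * (s * (2 * M * μ))))) *
      (2 * (s * (2 * M * μ)) ^ 2 * thr2 M b k (s * s) (2 * (s * (2 * M * μ)) ^ 2)))) + 1

theorem thr2_pos (M b k s μ : ℕ) : 1 ≤ thr2 M b k s μ := by
  cases k with
  | zero => exact le_rfl
  | succ k =>
    rw [thr2]
    exact Nat.le_add_left _ _

/-- exponents -/
def ex : ℕ → ℕ × ℕ × ℕ
  | 0 => (0, 0, 0)
  | k + 1 => (5 + (ex k).1 + 2 * (ex k).2.2, 6 + 2 * (ex k).2.1 + 2 * (ex k).2.2,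
      5 + 2 * (ex k).2.2)

theorem ex_le (k : ℕ) : (ex k).1 ≤ 5 * (k + 1) * 2 ^ k ∧ (ex k).2.1 ≤ 5 * (k + 1) * 2 ^ k ∧
    (ex k).2.2 ≤ 5 * (k + 1) * 2 ^ k := by
  have h : (ex k).1 + 5 * k + 10 = 10 * 2 ^ k ∧ (ex k).2.1 + 4 * 2 ^ k = 5 * (k * 2 ^ k) + 4 ∧
      (ex k).2.2 + 5 = 5 * 2 ^ k := by
    induction k with
    | zero => simp [ex]
    | succ k ih =>
      obtain ⟨h1, h2, h3⟩ := ih
      simp only [ex, pow_succ]
      obtain ⟨q, hq⟩ : ∃ q, q = k * 2 ^ k := ⟨_, rfl⟩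
      have e : (k + 1) * (2 ^ k * 2) = 2 * q + 2 * 2 ^ k := by
        rw [hq]
        ring
      rw [e]
      rw [← hq] at h2
      refine ⟨?_, ?_, ?_⟩ <;> omega
  obtain ⟨h1, h2, h3⟩ := h
  have hp : 1 ≤ 2 ^ k := Nat.one_le_two_pow
  have e : 5 * (k + 1) * 2 ^ k = 5 * (k * 2 ^ k) + 5 * 2 ^ k := by ring
  rw [e]
  refine ⟨?_, by omega, by omega⟩
  rcases Nat.eq_zero_or_pos k with h0 | h0
  · subst h0
    simp only [pow_zero, mul_one] at h1
    omega
  · have : 1 * 2 ^ k ≤ k * 2 ^ k := Nat.mul_le_mul_right _ h0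
    omega

theorem thr2_le {M b : ℕ} (hM : 1 ≤ M) (hb : 1 ≤ b) (k : ℕ) : ∀ s μ : ℕ, 1 ≤ s → 1 ≤ μ →
    thr2 M b k s μ ≤ (16 * M * b) ^ (ex k).1 * s ^ (ex k).2.1 * μ ^ (ex k).2.2 := by
  induction k with
  | zero =>
    intro s μ _ _
    simp [thr2, ex]
  | succ k ih =>
    intro s μ hs hμ
    obtain ⟨κ, hκ⟩ : ∃ κ, κ = s * (2 * M * μ) := ⟨_, rfl⟩
    have hκ1 : 1 ≤ κ := by
      rw [hκ]
      exact Nat.mul_pos hs (Nat.mul_pos (by omega) hμ)
    obtain ⟨τ, hτ⟩ : ∃ τ, τ = thr2 M b k (s * s) (2 * κ ^ 2) := ⟨_, rfl⟩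
    have hτ1 : 1 ≤ τ := by
      rw [hτ]
      exact thr2_pos _ _ _ _ _
    obtain ⟨Q, hQ⟩ : ∃ Q, Q = 16 * M * b := ⟨_, rfl⟩
    have hQ1 : 1 ≤ Q := by
      rw [hQ]
      exact Nat.mul_pos (by omega) hb
    have hμ3 : 1 ≤ 2 * κ ^ 2 := by
      have : 0 < κ ^ 2 := Nat.pow_pos hκ1
      omega
    have h1 : 2 * κ ^ 2 ≤ Q ^ 2 * s ^ 2 * μ ^ 2 := by
      calc 2 * κ ^ 2 = 8 * (M ^ 2 * 1 * s ^ 2 * μ ^ 2) := by
            rw [hκ]
            ring
        _ ≤ 16 ^ 2 * (M ^ 2 * b ^ 2 * s ^ 2 * μ ^ 2) := by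
            refine Nat.mul_le_mul (by norm_num) (Nat.mul_le_mul_right _ (Nat.mul_le_mul_right _
              (Nat.mul_le_mul_left _ (Nat.one_le_pow _ _ hb))))
        _ = Q ^ 2 * s ^ 2 * μ ^ 2 := by
            rw [hQ]
            ring
    have h2 : τ ≤ Q ^ ((ex k).1 + 2 * (ex k).2.2) * s ^ (2 * (ex k).2.1 + 2 * (ex k).2.2) *
        μ ^ (2 * (ex k).2.2) := by
      calc τ ≤ Q ^ (ex k).1 * (s * s) ^ (ex k).2.1 * (2 * κ ^ 2) ^ (ex k).2.2 := by
            rw [hτ, hQ]
            exact ih (s * s) (2 * κ ^ 2) (Nat.mul_pos hs hs) hμ3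
        _ ≤ Q ^ (ex k).1 * (s * s) ^ (ex k).2.1 * (Q ^ 2 * s ^ 2 * μ ^ 2) ^ (ex k).2.2 :=
            Nat.mul_le_mul_left _ (Nat.pow_le_pow_left h1 _)
        _ = Q ^ ((ex k).1 + 2 * (ex k).2.2) * s ^ (2 * (ex k).2.1 + 2 * (ex k).2.2) *
              μ ^ (2 * (ex k).2.2) := by
            have e1 : (s * s) ^ (ex k).2.1 = s ^ (2 * (ex k).2.1) := by rw [← sq, ← pow_mul]
            have e2 : (Q ^ 2 * s ^ 2 * μ ^ 2) ^ (ex k).2.2 = Q ^ (2 * (ex k).2.2) *
                s ^ (2 * (ex k).2.2) * μ ^ (2 * (ex k).2.2) := by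
              rw [mul_pow, mul_pow, ← pow_mul, ← pow_mul, ← pow_mul]
            rw [e1, e2, pow_add, pow_add]
            ring
    have h3 : s + s * (2 * κ) ≤ 3 * (s * κ) := by
      have : s * 1 ≤ s * κ := Nat.mul_le_mul_left _ hκ1
      nlinarith
    have h4 : 2 * μ * (M * (b * (s + s * (2 * κ)) * (b * (s + s * (2 * κ))) *
        (2 * κ ^ 2 * τ))) ≤ 576 * (M ^ 5 * b ^ 2 * s ^ 6 * μ ^ 5 * τ) := by
      calc 2 * μ * (M * (b * (s + s * (2 * κ)) * (b * (s + s * (2 * κ))) * (2 * κ ^ 2 * τ)))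
          ≤ 2 * μ * (M * (b * (3 * (s * κ)) * (b * (3 * (s * κ))) * (2 * κ ^ 2 * τ))) := by
            gcongr
        _ = 576 * (M ^ 5 * b ^ 2 * s ^ 6 * μ ^ 5 * τ) := by
            rw [hκ]
            ring
    have h5 : 1 ≤ M ^ 5 * b ^ 2 * s ^ 6 * μ ^ 5 * τ := by
      refine Nat.mul_pos (Nat.mul_pos (Nat.mul_pos (Nat.mul_pos ?_ ?_) ?_) ?_) hτ1 <;>
        exact Nat.pow_pos (by assumption)
    have h6 : 577 * (M ^ 5 * b ^ 2 * s ^ 6 * μ ^ 5 * τ) ≤ Q ^ 5 * s ^ 6 * μ ^ 5 * τ := by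
      calc 577 * (M ^ 5 * b ^ 2 * s ^ 6 * μ ^ 5 * τ)
          ≤ 16 ^ 5 * (M ^ 5 * b ^ 5 * s ^ 6 * μ ^ 5 * τ) := by
            refine Nat.mul_le_mul (by norm_num) (Nat.mul_le_mul_right _ (Nat.mul_le_mul_right _
              (Nat.mul_le_mul_right _ (Nat.mul_le_mul_left _
                (Nat.pow_le_pow_right hb (by norm_num))))))
        _ = Q ^ 5 * s ^ 6 * μ ^ 5 * τ := by
            rw [hQ]
            ring
    have h7 : thr2 M b (k + 1) s μ ≤ Q ^ 5 * s ^ 6 * μ ^ 5 * τ := by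
      rw [thr2, ← hκ, ← hτ]
      refine le_trans ?_ h6
      omega
    rw [← hQ]
    calc thr2 M b (k + 1) s μ ≤ Q ^ 5 * s ^ 6 * μ ^ 5 * τ := h7
      _ ≤ Q ^ 5 * s ^ 6 * μ ^ 5 * (Q ^ ((ex k).1 + 2 * (ex k).2.2) *
          s ^ (2 * (ex k).2.1 + 2 * (ex k).2.2) * μ ^ (2 * (ex k).2.2)) :=
          Nat.mul_le_mul_left _ h2
      _ = Q ^ (ex (k + 1)).1 * s ^ (ex (k + 1)).2.1 * μ ^ (ex (k + 1)).2.2 := by
          simp only [ex, pow_add]
          ring

theorem thr2_le' {M b : ℕ} (hM : 1 ≤ M) (hb : 1 ≤ b) (k : ℕ) {s μ : ℕ} (hs : 1 ≤ s)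
    (hμ : 1 ≤ μ) :
    thr2 M b k s μ ≤ (16 * M * b * (s * μ)) ^ (5 * (k + 1) * 2 ^ k) := by
  obtain ⟨h1, h2, h3⟩ := ex_le k
  refine (thr2_le hM hb k s μ hs hμ).trans ?_
  have hQ1 : 1 ≤ 16 * M * b := Nat.mul_pos (by omega) hb
  calc (16 * M * b) ^ (ex k).1 * s ^ (ex k).2.1 * μ ^ (ex k).2.2
      ≤ (16 * M * b) ^ (5 * (k + 1) * 2 ^ k) * s ^ (5 * (k + 1) * 2 ^ k) *
          μ ^ (5 * (k + 1) * 2 ^ k) :=
        Nat.mul_le_mul (Nat.mul_le_mul (Nat.pow_le_pow_right hQ1 h1)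
          (Nat.pow_le_pow_right hs h2)) (Nat.pow_le_pow_right hμ h3)
    _ = (16 * M * b * (s * μ)) ^ (5 * (k + 1) * 2 ^ k) := by
        rw [← mul_pow, ← mul_pow, mul_assoc]

/-- few classes have a large section -/
theorem heavy_node_le2 {S T Z : Finset (ι → X)} {D : Finset ι} {o : ι → X}
    {s ν k τ : ℕ} (hs : 1 ≤ s) (hν : 1 ≤ ν) (hrank : Low S D s) (hTS : T ⊆ S)
    (hd : ∀ a ∈ Z, (sec S D a).card ≤ ν * (sec T D a).card)
    {dig : ι → X → G} (hinj : Function.Injective (val dig))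
    (ih : ∀ v v' : ι → X,
      (pairSet S D v v').card ≤ 2 * (s * ν) ^ 2 * (pairSet T D v v').card →
      τ ≤ (pairSet S D v v').card → HasCube k ((pairSet T D v v').image (val dig)))
    (hno : ¬ HasCube (k + 1) (T.image (val dig))) :
    ((Z.filter fun a => 2 * (s * ν) ^ 2 * τ < (sec S D a).card).image
      fun a => ov D a o).card ≤ s + s * (2 * (s * ν)) := by
  classical
  by_contra hcon
  push Not at hcon
  set J := (Z.filter fun a => 2 * (s * ν) ^ 2 * τ < (sec S D a).card).image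
      fun a => ov D a o with hJ
  have hJprop : ∀ v ∈ J, (∀ i, i ∉ D → v i = o i) ∧
      2 * (s * ν) ^ 2 * τ < (col D o S v).card ∧
      (col D o S v).card ≤ ν * (col D o T v).card := by
    intro v hv
    obtain ⟨a, ha, rfl⟩ := Finset.mem_image.1 hv
    rw [Finset.mem_filter] at ha
    rw [card_col, card_col, sec_ov, sec_ov]
    exact ⟨fun i hi => ov_notMem hi, ha.2, hd a ha.1⟩
  obtain ⟨v, hv, v', hv', hne, h1⟩ := exists_dense_pair_min
    (fun v => col D o S v) (fun v => col D o T v) hs hν J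
    (fun v _ => col_mono hTS v) (fun v hv => (hJprop v hv).2.2)
    (fun v hv => Finset.card_pos.1 (lt_of_le_of_lt (Nat.zero_le _) (hJprop v hv).2.1))
    (fun I _ hI => hrank.tri o hI) hcon.le
  have hκ : 1 ≤ s * ν := Nat.mul_pos hs hν
  have hex : ∃ i ∈ D, v i ≠ v' i := by
    by_contra hall
    push Not at hall
    apply hne
    funext i
    by_cases hi : i ∈ D
    · exact hall i hi
    · rw [(hJprop v hv).1 i hi, (hJprop v' hv').1 i hi]
  obtain ⟨i, hi, hvv⟩ := hex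
  apply hno
  apply hasCube_pair hinj hi hvv
  have hpair : (pairSet S D v v').card = (col D o S v ∩ col D o S v').card :=
    card_pairSet _ D o _ _
  apply ih
  · rw [hpair, card_pairSet T D o]
    exact (Finset.card_le_card Finset.inter_subset_left).trans h1
  · rw [hpair]
    have h3 : (col D o T v ∩ col D o T v').card ≤ (col D o S v ∩ col D o S v').card :=
      Finset.card_le_card (Finset.inter_subset_inter (col_mono hTS v) (col_mono hTS v'))
    have h4 : 2 * (s * ν) ^ 2 * τ <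
        2 * (s * ν) ^ 2 * (col D o S v ∩ col D o S v').card :=
      lt_of_lt_of_le (hJprop v hv).2.1 (h1.trans (Nat.mul_le_mul_left _ h3))
    exact (Nat.lt_of_mul_lt_mul_left h4).le

theorem classLe_of_low2 {S T Z : Finset (ι → X)} {o : ι → X}
    {s ν k τ : ℕ} (hs : 1 ≤ s) (hν : 1 ≤ ν) (hTS : T ⊆ S)
    {dig : ι → X → G} (hinj : Function.Injective (val dig))
    (ih : ∀ (D : Finset ι) (v v' : ι → X),
      (pairSet S D v v').card ≤ 2 * (s * ν) ^ 2 * (pairSet T D v v').card →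
      τ ≤ (pairSet S D v v').card → HasCube k ((pairSet T D v v').image (val dig)))
    (hno : ¬ HasCube (k + 1) (T.image (val dig))) (t : Tree ι) (hrank : TreeLow S s t)
    (hd : ∀ a ∈ Z, DenseAt S T ν a t) :
    ClassLe S Z o (2 * (s * ν) ^ 2 * τ) (s + s * (2 * (s * ν))) t := by
  induction t with
  | leaf i => trivial
  | node l r ihl ihr =>
    exact ⟨heavy_node_le2 hs hν hrank.1 hTS (fun a ha => (hd a ha).1) hinj (ih _) hno,
      ihl hrank.2.1 fun a ha => (hd a ha).2.1, ihr hrank.2.2 fun a ha => (hd a ha).2.2⟩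

/-- A dense subset of a large set of small support rank contains a Hilbert cube. -/
theorem hasCube_of_low2 {M b : ℕ} (hM : 1 ≤ M) (hb : 1 ≤ b) (hX : Fintype.card X ≤ b)
    {dig : ι → X → G} (hinj : Function.Injective (val dig)) {t : Tree ι} (ht : t.pos = univ)
    (ht1 : 1 ≤ t.size) (htM : t.size ≤ M) (k : ℕ) :
    ∀ (s μ : ℕ) (S T : Finset (ι → X)), 1 ≤ s → 1 ≤ μ → TreeLow S s t →
      T ⊆ S → S.card ≤ μ * T.card → thr2 M b k s μ ≤ S.card →
      HasCube k (T.image (val dig)) := by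
  classical
  induction k with
  | zero =>
    intro s μ S T hs hμ hf hTS hST hthr
    apply hasCube_zero
    rw [Finset.image_nonempty]
    apply Finset.card_pos.1
    rw [thr2] at hthr
    rcases Nat.eq_zero_or_pos T.card with h0 | h0
    · rw [h0, mul_zero] at hST
      omega
    · exact h0
  | succ k ihk =>
    intro s μ S T hs hμ hf hTS hST hthr
    by_contra hno
    obtain ⟨ν, hν⟩ : ∃ ν, ν = 2 * M * μ := ⟨_, rfl⟩
    have hν1 : 1 ≤ ν := by
      rw [hν]
      exact Nat.mul_pos (by omega) hμ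
    have hκ : 1 ≤ s * ν := Nat.mul_pos hs hν1
    obtain ⟨τ, hτ⟩ : ∃ τ, τ = thr2 M b k (s * s) (2 * (s * ν) ^ 2) := ⟨_, rfl⟩
    have hτ1 : 1 ≤ τ := by
      rw [hτ]
      exact thr2_pos _ _ _ _ _
    set Z := T.filter fun a => DenseAt S T ν a t with hZ
    have hZcard : T.card ≤ 2 * Z.card := by
      have h1 := not_dense_le S T ν t
      have h2 := Finset.card_filter_add_card_filter_not (s := T)
        (fun a => DenseAt S T ν a t)
      have h4 : M * μ * (2 * (T.filter fun a => ¬ DenseAt S T ν a t).card) ≤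
          M * μ * T.card := by
        calc M * μ * (2 * (T.filter fun a => ¬ DenseAt S T ν a t).card)
            = ν * (T.filter fun a => ¬ DenseAt S T ν a t).card := by
              rw [hν]
              ring
          _ ≤ t.size * S.card := h1
          _ ≤ M * (μ * T.card) := Nat.mul_le_mul htM hST
          _ = M * μ * T.card := by ring
      have h5 := Nat.le_of_mul_le_mul_left h4 (Nat.mul_pos hM hμ)
      rw [← hZ] at h2
      omega
    have hSZ : S.card ≤ 2 * μ * Z.card := by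
      calc S.card ≤ μ * T.card := hST
        _ ≤ μ * (2 * Z.card) := Nat.mul_le_mul_left _ hZcard
        _ = 2 * μ * Z.card := by ring
    have hSpos : 1 ≤ S.card := (thr2_pos _ _ _ _ _).trans hthr
    obtain ⟨o, -⟩ := Finset.card_pos.1 hSpos
    have hcl : ClassLe S Z o (2 * (s * ν) ^ 2 * τ) (s + s * (2 * (s * ν))) t := by
      apply classLe_of_low2 hs hν1 hTS hinj (k := k) _ hno t hf
      · intro a ha
        exact (Finset.mem_filter.1 ha).2
      · intro D v v' h1 h2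
        refine ihk (s * s) (2 * (s * ν) ^ 2) (pairSet S D v v') (pairSet T D v v')
          (Nat.mul_pos hs hs) ?_ (hf.pair D v v') ?_ h1 (by rw [← hτ]; exact h2)
        · have : 0 < (s * ν) ^ 2 := Nat.pow_pos hκ
          omega
        · intro w hw
          rw [pairSet, Finset.mem_filter] at hw ⊢
          exact ⟨hTS hw.1, hw.2.1, hTS hw.2.2⟩
    have hlight : ∀ a ∈ Z, Light S (2 * (s * ν) ^ 2 * τ) a t := by
      intro a _
      cases t with
      | leaf i =>
        rw [Tree.size] at ht1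
        omega
      | node l r =>
        have hpos : l.pos ∪ r.pos = univ := ht
        have h1 : (sec S (l.pos ∪ r.pos) a).card ≤ 1 := by
          rw [Finset.card_le_one]
          intro w hw w' hw'
          rw [sec, Finset.mem_filter, hpos] at hw hw'
          funext i
          rw [hw.2 i (Finset.mem_univ i), hw'.2 i (Finset.mem_univ i)]
        refine le_trans h1 ?_
        have : 0 < (s * ν) ^ 2 * τ := Nat.mul_pos (Nat.pow_pos hκ) hτ1
        have e : 2 * (s * ν) ^ 2 * τ = 2 * ((s * ν) ^ 2 * τ) := by ring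
        omega
    have hfin := light_le hb (by omega) hX t Z ((Finset.filter_subset _ _).trans hTS) hcl hlight
    have hfin2 : S.card ≤ 2 * μ * (M * (b * (s + s * (2 * (s * ν))) *
        (b * (s + s * (2 * (s * ν)))) * (2 * (s * ν) ^ 2 * τ))) :=
      hSZ.trans (Nat.mul_le_mul_left _ (hfin.trans (Nat.mul_le_mul_right _ htM)))
    rw [thr2] at hthr
    rw [hτ, hν] at hfin2
    omega

/-- Robust form for support ranks. -/
theorem card_le_of_low2 {b : ℕ} (hb : 1 ≤ b) (hX : Fintype.card X ≤ b)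
    {dig : ι → X → G} (hinj : Function.Injective (val dig)) {t : Tree ι} (ht : t.pos = univ)
    {s : ℕ} (hs : 1 ≤ s) {S T : Finset (ι → X)} (hf : TreeLow S s t)
    (hT : T ⊆ S) {k : ℕ} (hno : ¬ HasCube k (T.image (val dig))) :
    (T.card : ℝ) ≤ 32 * (t.size + 1) * b * s *
      (S.card : ℝ) ^ (1 - 1 / (5 * (k + 1) * (2 : ℝ) ^ k)) := by
  classical
  have h := real_formE (C := 16 * (t.size + 1) * b) (E := 5 * (k + 1) * 2 ^ k) (s := s)
    (N := S.card) (t := T.card) (Nat.mul_pos (by omega) Nat.one_le_two_pow)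
    (Finset.card_le_card hT) ?_
  · refine h.trans (le_of_eq ?_)
    push_cast
    ring
  · intro μ hμ hNT
    have hQ : 16 * b ≤ 16 * (t.size + 1) * b * (s * μ) := by
      calc 16 * b = 16 * 1 * b * (1 * 1) := by ring
        _ ≤ 16 * (t.size + 1) * b * (s * μ) := by
            refine Nat.mul_le_mul (Nat.mul_le_mul_right _ (Nat.mul_le_mul_left _ (by omega)))
              (Nat.mul_le_mul hs hμ)
    have hQ1 : 1 < 16 * (t.size + 1) * b * (s * μ) := by omega
    by_contra hcon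
    push Not at hcon
    rcases Nat.eq_zero_or_pos t.size with h0 | h0
    · have h1 : S.card ≤ b := by
        cases t with
        | node l r =>
          rw [Tree.size] at h0
          omega
        | leaf i =>
          refine le_trans ?_ hX
          rw [← Finset.card_univ]
          refine Finset.card_le_card_of_injOn (fun w => w i) (fun _ _ => Finset.mem_coe.2
            (Finset.mem_univ _)) ?_
          intro w _ w' _ e
          simp only at e
          funext j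
          have hj : j ∈ (Tree.leaf i).pos := by
            rw [ht]
            exact Finset.mem_univ _
          rw [Tree.pos, Finset.mem_singleton] at hj
          rw [hj, e]
      have h2 : (16 * (t.size + 1) * b * (s * μ)) ^ 1 ≤
          (16 * (t.size + 1) * b * (s * μ)) ^ (5 * (k + 1) * 2 ^ k) :=
        Nat.pow_le_pow_right (by omega)
          (Nat.mul_pos (by omega) Nat.one_le_two_pow)
      rw [pow_one] at h2
      omega
    · apply hno
      refine hasCube_of_low2 (M := t.size + 1) (by omega) hb hX hinj ht h0 (by omega) k s μ S T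
        hs hμ hf hT hNT ?_
      exact (thr2_le' (by omega) hb k hs hμ).trans hcon

/-- **Numbers.** -/
theorem low2_numbers {A : Set ℕ} {x k : ℕ} (hg : ∀ m ≤ 2 * x, rep A m < 2 ^ k)
    {dig : ι → X → ℤ} (hinj : Function.Injective fun w : ι → X => ∑ i, dig i (w i))
    {t : Tree ι} (ht : t.pos = univ) {s : ℕ} (hs : 1 ≤ s) {S : Finset (ι → X)}
    (hf : TreeLow S s t) :
    (({w | w ∈ S ∧ ∃ a ∈ A, a ≤ x ∧ ∑ i, dig i (w i) = (a : ℤ)} : Set (ι → X)).ncard : ℝ) ≤
      32 * (t.size + 1) * Fintype.card X * s * (S.card : ℝ) ^ (1 - 1 / (5 * (k + 1) * (2 : ℝ) ^ k)) := by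
  classical
  set T : Finset (ι → X) := S.filter fun w => ∃ a ∈ A, a ≤ x ∧ ∑ i, dig i (w i) = (a : ℤ) with hT
  have hno : ¬ HasCube k (T.image (val dig)) := by
    apply not_hasCube (A := A) (x := x) (g := 2 ^ k - 1)
    · intro m hm
      have := hg m hm
      omega
    · have : 0 < 2 ^ k := Nat.pow_pos (by norm_num)
      omega
    · intro z hz
      obtain ⟨w, hw, rfl⟩ := Finset.mem_image.1 hz
      rw [hT, Finset.mem_filter] at hw
      obtain ⟨-, a, ha, hax, e⟩ := hw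
      exact ⟨a, ha, hax, e.symm⟩
  have h1 : ({w | w ∈ S ∧ ∃ a ∈ A, a ≤ x ∧ ∑ i, dig i (w i) = (a : ℤ)} :
      Set (ι → X)).ncard = T.card := by
    rw [← Set.ncard_coe_finset]
    congr 1
    ext w
    simp [hT]
  rw [h1]
  rcases Nat.eq_zero_or_pos (Fintype.card X) with h0 | h0
  · have hX : IsEmpty X := Fintype.card_eq_zero_iff.1 h0
    have hT0 : T.card = 0 := by
      rw [Finset.card_eq_zero, Finset.eq_empty_iff_forall_notMem]
      intro w _
      obtain ⟨i, _⟩ := t.pos_nonempty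
      exact hX.elim (w i)
    rw [hT0, Nat.cast_zero]
    positivity
  · exact card_le_of_low2 h0 le_rfl (dig := dig) hinj ht hs hf (Finset.filter_subset _ _) hno

/-- **Pairs.** -/
theorem low2_pairs {A : Set ℕ} {x k : ℕ} (hg : ∀ m ≤ 2 * x, rep A m < 2 ^ k)
    {dig : ι → X → ℤ × ℤ} (hinj : Function.Injective fun w : ι → X => ∑ i, dig i (w i))
    {t : Tree ι} (ht : t.pos = univ) {s : ℕ} (hs : 1 ≤ s) {S : Finset (ι → X)}
    (hf : TreeLow S s t) :
    (({w | w ∈ S ∧ ∃ a ∈ A, ∃ a' ∈ A, a ≤ x ∧ a' ≤ x ∧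
      ∑ i, dig i (w i) = ((a : ℤ), (a' : ℤ))} : Set (ι → X)).ncard : ℝ) ≤
      32 * (t.size + 1) * Fintype.card X * s *
        (S.card : ℝ) ^ (1 - 1 / (5 * (2 * k + 1) * (4 : ℝ) ^ k)) := by
  classical
  set T : Finset (ι → X) := S.filter fun w => ∃ a ∈ A, ∃ a' ∈ A, a ≤ x ∧ a' ≤ x ∧
    ∑ i, dig i (w i) = ((a : ℤ), (a' : ℤ)) with hT
  have hno : ¬ HasCube (2 * k) (T.image (val dig)) := by
    apply not_hasCube_pair (A := A) (x := x) (g := 2 ^ k - 1)
    · intro m hm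
      have := hg m hm
      omega
    · have : 0 < 2 ^ k := Nat.pow_pos (by norm_num)
      omega
    · intro z hz
      obtain ⟨w, hw, rfl⟩ := Finset.mem_image.1 hz
      rw [hT, Finset.mem_filter] at hw
      obtain ⟨-, a, ha, a', ha', hax, hax', e⟩ := hw
      unfold val
      rw [e]
      exact ⟨⟨a, ha, hax, rfl⟩, a', ha', hax', rfl⟩
  have h1 : ({w | w ∈ S ∧ ∃ a ∈ A, ∃ a' ∈ A, a ≤ x ∧ a' ≤ x ∧
      ∑ i, dig i (w i) = ((a : ℤ), (a' : ℤ))} : Set (ι → X)).ncard = T.card := by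
    rw [← Set.ncard_coe_finset]
    congr 1
    ext w
    simp [hT]
  rw [h1]
  rcases Nat.eq_zero_or_pos (Fintype.card X) with h0 | h0
  · have hX : IsEmpty X := Fintype.card_eq_zero_iff.1 h0
    have hT0 : T.card = 0 := by
      rw [Finset.card_eq_zero, Finset.eq_empty_iff_forall_notMem]
      intro w _
      obtain ⟨i, _⟩ := t.pos_nonempty
      exact hX.elim (w i)
    rw [hT0, Nat.cast_zero]
    positivity
  · have h2 := card_le_of_low2 h0 le_rfl (dig := dig) hinj ht hs hf (T := T)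
      (Finset.filter_subset _ _) hno
    have e : (5 : ℝ) * ((2 * k : ℕ) + 1) * 2 ^ (2 * k) = 5 * (2 * k + 1) * 4 ^ k := by
      rw [pow_mul]
      push_cast
      norm_num
    rw [e] at h2
    exact h2

end Pool.Agent.Helper29.LR
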