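import Pool.Agent.Helper29.LR.Node
import Pool.Agent.Helper29.LR.Bridge

/-!
Support ranks at the nodes of a tree, in terms of ranks of matrices and of covers by rectangles.
-/

open Finset

namespace Pool.Agent.Helper29.LR

open Pool.Agent.Helper82.CF (rep)

variable {ι X : Type*} [Fintype ι] [DecidableEq ι] [Fintype X] [DecidableEq X]

/-- `S` is the support of a function, over some field, whose rank at `D` is at most `s` -/
def SuppRank (S : Set (ι → X)) (D : Finset ι) (s : ℕ) : Prop :=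
  ∃ (K : Type) (_ : Field K) (f : (ι → X) → K), (∀ w, f w ≠ 0 ↔ w ∈ S) ∧ Helper84.TN.rk f D ≤ s

/-- `S` is a union of `s` rectangles with respect to `D` -/
def Cover (S : Set (ι → X)) (D : Finset ι) (s : ℕ) : Prop :=
  ∃ P Q : Fin s → Set (ι → X), (∀ t v w, (∀ i ∈ D, v i = w i) → (v ∈ P t ↔ w ∈ P t)) ∧
    (∀ t v w, (∀ i, i ∉ D → v i = w i) → (v ∈ Q t ↔ w ∈ Q t)) ∧
    ∀ w, w ∈ S ↔ ∃ t, w ∈ P t ∧ w ∈ Q t

theorem Low.of_suppRank {S : Finset (ι → X)} {D : Finset ι} {s : ℕ}
    (h : SuppRank (S : Set (ι → X)) D s) : Low S D s := by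
  obtain ⟨K, _, f, h1, h2⟩ := h
  exact ⟨K, inferInstance, f, fun w => by rw [← Finset.mem_coe]; exact (h1 w).symm,
    rankLe_of_rk h2⟩

theorem Low.of_cover {S : Finset (ι → X)} {D : Finset ι} {s : ℕ}
    (h : Cover (S : Set (ι → X)) D s) : Low S D s := by
  classical
  obtain ⟨P, Q, hP, hQ, hS⟩ := h
  refine ⟨ℚ, inferInstance, fun w => ∑ t, (if w ∈ P t then (1 : ℚ) else 0) *
    (if w ∈ Q t then (1 : ℚ) else 0), ?_, fun t w => if w ∈ P t then (1 : ℚ) else 0,
    fun t w => if w ∈ Q t then (1 : ℚ) else 0, ?_, ?_, fun w => rfl⟩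
  · intro w
    rw [← Finset.mem_coe, hS]
    have hnn : ∀ t ∈ (Finset.univ : Finset (Fin s)), (0 : ℚ) ≤ (if w ∈ P t then (1 : ℚ) else 0) *
        (if w ∈ Q t then (1 : ℚ) else 0) := by
      intro t _
      split_ifs <;> norm_num
    simp only [ne_eq]
    rw [Finset.sum_eq_zero_iff_of_nonneg hnn]
    push Not
    constructor
    · rintro ⟨t, h1, h2⟩
      refine ⟨t, Finset.mem_univ t, ?_⟩
      rw [if_pos h1, if_pos h2]
      norm_num
    · rintro ⟨t, -, h⟩
      refine ⟨t, ?_, ?_⟩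
      · by_contra h1
        rw [if_neg h1, zero_mul] at h
        exact h rfl
      · by_contra h1
        rw [if_neg h1, mul_zero] at h
        exact h rfl
  · intro t v w hvw
    simp only [hP t v w hvw]
  · intro t v w hvw
    simp only [hQ t v w hvw]

theorem treeLow_conv {S : Finset (ι → X)} {s : ℕ} {T : Helper84.TN.Tree ι}
    (hr : ∀ D ∈ T.blocks, SuppRank (S : Set (ι → X)) D s ∨ Cover (S : Set (ι → X)) D s) :
    TreeLow S s (conv T) := by
  induction T with
  | leaf i => trivial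
  | node l r ihl ihr =>
    rw [conv, TreeLow, pos_conv, pos_conv]
    refine ⟨?_, ihl fun D hD => hr D ?_, ihr fun D hD => hr D ?_⟩
    · rcases hr _ (Set.mem_insert _ _) with h | h
      · exact Low.of_suppRank h
      · exact Low.of_cover h
    · exact Set.mem_insert_of_mem _ (Or.inl hD)
    · exact Set.mem_insert_of_mem _ (Or.inr hD)

/-- Numbers: `S` a set of words with small support rank (or a small cover by rectangles) at every
node. -/
theorem node_words {A : Set ℕ} {n b x s k : ℕ} (T : Helper84.TN.Tree (Fin n)) (hT : T.Proper)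
    (huniv : T.set = Finset.univ) (S : Set (Fin n → Fin b)) (hs : 1 ≤ s)
    (hr : ∀ D ∈ T.blocks, SuppRank S D s ∨ Cover S D s)
    (hg : ∀ m ≤ 2 * x, rep A m < 2 ^ (k + 1)) :
    (({v | v ∈ S ∧ Helper84.TN.value v ∈ A ∧ Helper84.TN.value v ≤ x} :
      Set (Fin n → Fin b)).ncard : ℝ) ≤
      32 * n * b * s * (S.ncard : ℝ) ^ (1 - 1 / (2 * (5 : ℝ) ^ (k + 1))) := by
  classical
  set S' : Finset (Fin n → Fin b) := Finset.univ.filter fun w => w ∈ S with hS'
  have e : (S' : Set (Fin n → Fin b)) = S := by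
    ext w
    simp [hS']
  have hr' : ∀ D ∈ T.blocks, SuppRank (S' : Set (Fin n → Fin b)) D s ∨
      Cover (S' : Set (Fin n → Fin b)) D s := by
    rw [e]
    exact hr
  have h := low_numbers (A := A) (x := x) (k := k + 1) hg
    (dig := fun (i : Fin n) (d : Fin b) => ((d : ℕ) : ℤ) * (b : ℤ) ^ (i : ℕ))
    (word_injective n b) (t := conv T) (by rw [pos_conv, huniv]) hs (treeLow_conv hr')
  have hsz : (((conv T).size : ℝ) + 1) = n := by
    have := size_conv hT
    rw [huniv, Finset.card_univ, Fintype.card_fin] at this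
    exact_mod_cast this
  rw [hsz, Fintype.card_fin, ← Set.ncard_coe_finset, e] at h
  refine le_trans (le_of_eq ?_) h
  congr 2
  ext v
  constructor
  · rintro ⟨h1, h2, h3⟩
    refine ⟨by rw [← Finset.mem_coe, e]; exact h1, _, h2, h3, ?_⟩
    simp only [Helper84.TN.value]
    push_cast
    rfl
  · rintro ⟨h1, a, ha, hax, h2⟩
    have h3 : Helper84.TN.value v = a := by
      unfold Helper84.TN.value
      exact_mod_cast h2
    refine ⟨by rw [← Finset.mem_coe, e] at h1; exact h1, ?_, ?_⟩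
    · rw [h3]
      exact ha
    · rw [h3]
      exact hax

/-- Choices: `S` a set of words, read as the digits of `m` and the digits of `a`. -/
theorem node_choice {A : Set ℕ} {n b x s k : ℕ} (T : Helper84.TN.Tree (Fin n ⊕ Fin n))
    (hT : T.Proper) (huniv : T.set = Finset.univ) (S : Set (Fin n ⊕ Fin n → Fin b)) (hs : 1 ≤ s)
    (hr : ∀ D ∈ T.blocks, SuppRank S D s ∨ Cover S D s)
    (hg : ∀ m ≤ 2 * x, rep A m < 2 ^ (k + 1)) :
    (({v | v ∈ S ∧ ∃ a ∈ A, ∃ a' ∈ A, a ≤ x ∧ a' ≤ x ∧ Helper84.TN.value (v ∘ Sum.inr) = a ∧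
      Helper84.TN.value (v ∘ Sum.inl) = a + a'} : Set (Fin n ⊕ Fin n → Fin b)).ncard : ℝ) ≤
      64 * n * b * s * (S.ncard : ℝ) ^ (1 - 1 / (2 * (25 : ℝ) ^ (k + 1))) := by
  classical
  set S' : Finset (Fin n ⊕ Fin n → Fin b) := Finset.univ.filter fun w => w ∈ S with hS'
  have e : (S' : Set (Fin n ⊕ Fin n → Fin b)) = S := by
    ext w
    simp [hS']
  have hr' : ∀ D ∈ T.blocks, SuppRank (S' : Set (Fin n ⊕ Fin n → Fin b)) D s ∨
      Cover (S' : Set (Fin n ⊕ Fin n → Fin b)) D s := by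
    rw [e]
    exact hr
  have h := low_pairs (A := A) (x := x) (k := k + 1) hg (digPair_injective n b) (t := conv T)
    (by rw [pos_conv, huniv]) hs (treeLow_conv hr')
  have hsz : (((conv T).size : ℝ) + 1) = 2 * n := by
    have := size_conv hT
    rw [huniv, Finset.card_univ, Fintype.card_sum, Fintype.card_fin] at this
    have h2 : (conv T).size + 1 = 2 * n := by omega
    exact_mod_cast h2
  have e2 : (2 : ℝ) * 5 ^ (2 * (k + 1)) = 2 * 25 ^ (k + 1) := by
    rw [pow_mul]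
    norm_num
  rw [hsz, Fintype.card_fin, ← Set.ncard_coe_finset, e, e2] at h
  refine le_trans (le_of_eq ?_) (h.trans (le_of_eq (by ring)))
  congr 2
  ext v
  have hv : ∀ a a' : ℕ, (∑ i, digPair n b i (v i) = ((a : ℤ), (a' : ℤ))) ↔
      (Helper84.TN.value (v ∘ Sum.inr) = a ∧ Helper84.TN.value (v ∘ Sum.inl) = a + a') := by
    intro a a'
    rw [sum_digPair, Prod.mk.injEq]
    have e3 : ∑ i, ((v (.inr i) : ℕ) : ℤ) * (b : ℤ) ^ (i : ℕ) =
        ((Helper84.TN.value (v ∘ Sum.inr) : ℕ) : ℤ) := by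
      unfold Helper84.TN.value
      push_cast
      rfl
    have e4 : ∑ i, ((v (.inl i) : ℕ) : ℤ) * (b : ℤ) ^ (i : ℕ) =
        ((Helper84.TN.value (v ∘ Sum.inl) : ℕ) : ℤ) := by
      unfold Helper84.TN.value
      push_cast
      rfl
    rw [e3, e4]
    constructor
    · rintro ⟨h1, h2⟩
      constructor <;> omega
    · rintro ⟨h1, h2⟩
      constructor <;> omega
  constructor
  · rintro ⟨h1, a, ha, a', ha', hax, hax', h2, h3⟩
    exact ⟨by rw [← Finset.mem_coe, e]; exact h1, a, ha, a', ha', hax, hax',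
      (hv a a').2 ⟨h2, h3⟩⟩
  · rintro ⟨h1, a, ha, a', ha', hax, hax', h2⟩
    obtain ⟨h3, h4⟩ := (hv a a').1 h2
    exact ⟨by rw [← Finset.mem_coe, e] at h1; exact h1, a, ha, a', ha', hax, hax', h3, h4⟩

end Pool.Agent.Helper29.LR
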