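import Pool.Agent.Helper29.LR.Comb
import Pool.Agent.Helper29.RC.CB

/-!
Functions of digits with small rank with respect to a binary tree of the digit positions:
definitions, sections and triangular families.
-/

open Finset

namespace Pool.Agent.Helper29.LR

/-- a binary tree whose leaves carry digit positions -/
inductive Tree (ι : Type*)
  | leaf (i : ι) : Tree ι
  | node (l r : Tree ι) : Tree ι

variable {ι X F : Type*} [Fintype ι] [DecidableEq ι] [Fintype X] [DecidableEq X] [Field F]

/-- the positions at the leaves of a tree -/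
def Tree.pos : Tree ι → Finset ι
  | .leaf i => {i}
  | .node l r => l.pos ∪ r.pos

/-- the number of inner nodes of a tree -/
def Tree.size {ι : Type*} : Tree ι → ℕ
  | .leaf _ => 0
  | .node l r => l.size + r.size + 1

/-- `f` is a sum of `s` products `g h`, where `g` depends only on the digits in `D` and `h` only on
the other digits -/
def RankLe (f : (ι → X) → F) (D : Finset ι) (s : ℕ) : Prop :=
  ∃ g h : Fin s → (ι → X) → F, (∀ t v w, (∀ i ∈ D, v i = w i) → g t v = g t w) ∧
    (∀ t v w, (∀ i, i ∉ D → v i = w i) → h t v = h t w) ∧ ∀ w, f w = ∑ t, g t w * h t w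

/-- rank at most `s` at all inner nodes of the tree -/
def TreeRank (f : (ι → X) → F) (s : ℕ) : Tree ι → Prop
  | .leaf _ => True
  | .node l r => RankLe f (l.pos ∪ r.pos) s ∧ TreeRank f s l ∧ TreeRank f s r

/-- `v` on `D`, `w` elsewhere -/
def ov (D : Finset ι) (v w : ι → X) : ι → X := fun i => if i ∈ D then v i else w i

omit [Fintype ι] [Fintype X] [DecidableEq X] in
theorem ov_mem {D : Finset ι} {v w : ι → X} {i : ι} (h : i ∈ D) : ov D v w i = v i := if_pos h

omit [Fintype ι] [Fintype X] [DecidableEq X] in
theorem ov_notMem {D : Finset ι} {v w : ι → X} {i : ι} (h : i ∉ D) : ov D v w i = w i := if_neg h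

/-- the words of `S` which agree with `v` on `D` -/
def sec (S : Finset (ι → X)) (D : Finset ι) (v : ι → X) : Finset (ι → X) :=
  S.filter fun w => ∀ i ∈ D, w i = v i

/-- the section of `S` at `v`, moved to the words which agree with `o` on `D` -/
def col (D : Finset ι) (o : ι → X) (S : Finset (ι → X)) (v : ι → X) : Finset (ι → X) :=
  (sec S D v).image (ov D o)

theorem mem_col {D : Finset ι} {o : ι → X} {S : Finset (ι → X)} {v u : ι → X} :
    u ∈ col D o S v ↔ (∀ i ∈ D, u i = o i) ∧ ov D v u ∈ S := by
  unfold col sec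
  rw [Finset.mem_image]
  constructor
  · rintro ⟨w, hw, rfl⟩
    rw [Finset.mem_filter] at hw
    refine ⟨fun i hi => ov_mem hi, ?_⟩
    have : ov D v (ov D o w) = w := by
      funext i
      by_cases hi : i ∈ D
      · rw [ov_mem hi, hw.2 i hi]
      · rw [ov_notMem hi, ov_notMem hi]
    rw [this]
    exact hw.1
  · rintro ⟨h1, h2⟩
    refine ⟨ov D v u, Finset.mem_filter.2 ⟨h2, fun i hi => ov_mem hi⟩, ?_⟩
    funext i
    by_cases hi : i ∈ D
    · rw [ov_mem hi, h1 i hi]
    · rw [ov_notMem hi, ov_notMem hi]

theorem card_col (D : Finset ι) (o : ι → X) (S : Finset (ι → X)) (v : ι → X) :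
    (col D o S v).card = (sec S D v).card := by
  unfold col
  apply Finset.card_image_of_injOn
  intro w hw w' hw' h
  rw [Finset.mem_coe, sec, Finset.mem_filter] at hw hw'
  funext i
  by_cases hi : i ∈ D
  · rw [hw.2 i hi, hw'.2 i hi]
  · have := congrFun h i
    simp only [ov_notMem hi] at this
    exact this

theorem col_mono {D : Finset ι} {o : ι → X} {S T : Finset (ι → X)} (h : T ⊆ S) (v : ι → X) :
    col D o T v ⊆ col D o S v := by
  intro u hu
  rw [mem_col] at hu ⊢
  exact ⟨hu.1, h hu.2⟩

/-- the support -/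
noncomputable def supp (f : (ι → X) → F) : Finset (ι → X) := by
  classical exact univ.filter fun w => f w ≠ 0

theorem mem_supp {f : (ι → X) → F} {w : ι → X} : w ∈ supp f ↔ f w ≠ 0 := by
  classical
  unfold supp
  rw [Finset.mem_filter]
  exact ⟨fun h => h.2, fun h => ⟨Finset.mem_univ _, h⟩⟩

/-- triangular families of rows are short -/
theorem tri_card_le {f : (ι → X) → F} {D : Finset ι} {s : ℕ} (h : RankLe f D s) (o : ι → X)
    {I : Finset (ι → X)} (hI : Tri (fun v => col D o (supp f) v) I) : I.card ≤ s := by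
  classical
  obtain ⟨g, h', hg, hh, hf⟩ := h
  set row : (ι → X) → ((ι → X) → F) := fun v u => f (ov D v u) with hrow
  have hlin : LinearIndepOn F row (I : Set (ι → X)) := by
    induction hI with
    | empty => simp
    | @insert I v hI hv u hu hIu ih =>
      rw [Finset.coe_insert]
      refine ih.insert ?_
      intro hmem
      have hz : ∀ x ∈ Submodule.span F (row '' (I : Set (ι → X))), x u = 0 := by
        intro x hx
        induction hx using Submodule.span_induction with
        | mem x hx =>
          obtain ⟨j, hj, rfl⟩ := hx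
          by_contra hne
          exact hIu j hj (mem_col.2 ⟨(mem_col.1 hu).1, mem_supp.2 hne⟩)
        | zero => rfl
        | add x y _ _ hx hy => rw [Pi.add_apply, hx, hy, add_zero]
        | smul a x _ hx => rw [Pi.smul_apply, hx, smul_zero]
      exact (mem_supp.1 (mem_col.1 hu).2) (hz _ hmem)
  have hspan : Submodule.span F (row '' (I : Set (ι → X))) ≤
      Submodule.span F (Set.range h') := by
    rw [Submodule.span_le]
    rintro _ ⟨v, -, rfl⟩
    have e : row v = ∑ t, g t v • h' t := by
      funext u
      rw [hrow]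
      simp only
      rw [hf, Finset.sum_apply]
      apply Finset.sum_congr rfl
      intro t _
      rw [Pi.smul_apply, smul_eq_mul, hg t (ov D v u) v fun i hi => ov_mem hi,
        hh t (ov D v u) u fun i hi => ov_notMem hi]
    rw [e]
    exact Submodule.sum_mem _ fun t _ => Submodule.smul_mem _ _
      (Submodule.subset_span ⟨t, rfl⟩)
  have h1 : Module.finrank F (Submodule.span F (row '' (I : Set (ι → X)))) = I.card := by
    have h2 := finrank_span_eq_card (R := F) (b := fun v : I => row v) hlin.linearIndependent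
    rw [Fintype.card_coe] at h2
    have e : row '' (I : Set (ι → X)) = Set.range (fun v : I => row v) := by
      ext x
      simp only [Set.mem_image, Finset.mem_coe, Set.mem_range, Subtype.exists, exists_prop]
    rw [e, h2]
  have h2 := Submodule.finrank_mono hspan
  have h3 : Module.finrank F (Submodule.span F (Set.range h')) ≤ s := by
    have := finrank_range_le_card (R := F) (b := h')
    rwa [Fintype.card_fin] at this
  omega

/-- the function on the words which agree with `v` on `D` whose support is the intersection of the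
sections at `v` and `v'` -/
noncomputable def cut (f : (ι → X) → F) (D : Finset ι) (v v' : ι → X) : (ι → X) → F := fun w =>
  if ∀ i ∈ D, w i = v i then f w * f (ov D v' w) else 0

theorem cut_ne {f : (ι → X) → F} {D : Finset ι} {v v' w : ι → X} :
    cut f D v v' w ≠ 0 ↔ (∀ i ∈ D, w i = v i) ∧ f w ≠ 0 ∧ f (ov D v' w) ≠ 0 := by
  unfold cut
  split_ifs with h
  · rw [mul_ne_zero_iff]
    exact ⟨fun h' => ⟨h, h'⟩, fun h' => h'.2⟩
  · exact ⟨fun h' => absurd rfl h', fun h' => absurd h'.1 h⟩

theorem rankLe_cut {f : (ι → X) → F} {E : Finset ι} {s : ℕ} (hf : RankLe f E s) (D : Finset ι)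
    (v v' : ι → X) : RankLe (cut f D v v') E (s * s) := by
  obtain ⟨g, h, hg, hh, hfe⟩ := hf
  let e : Fin (s * s) ≃ Fin s × Fin s := finProdFinEquiv.symm
  refine ⟨fun t w => (if ∀ i ∈ D, i ∈ E → w i = v i then 1 else 0) *
      (g (e t).1 w * g (e t).2 (ov D v' w)),
    fun t w => (if ∀ i ∈ D, i ∉ E → w i = v i then 1 else 0) *
      (h (e t).1 w * h (e t).2 (ov D v' w)), ?_, ?_, ?_⟩
  · intro t a c hac
    have e1 : (∀ i ∈ D, i ∈ E → a i = v i) ↔ ∀ i ∈ D, i ∈ E → c i = v i :=
      ⟨fun H i hi hiE => (hac i hiE) ▸ H i hi hiE, fun H i hi hiE => (hac i hiE).symm ▸ H i hi hiE⟩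
    have e2 : g (e t).2 (ov D v' a) = g (e t).2 (ov D v' c) := by
      apply hg
      intro i hi
      by_cases hD : i ∈ D
      · rw [ov_mem hD, ov_mem hD]
      · rw [ov_notMem hD, ov_notMem hD, hac i hi]
    simp only [e1, e2, hg (e t).1 a c hac]
  · intro t a c hac
    have e1 : (∀ i ∈ D, i ∉ E → a i = v i) ↔ ∀ i ∈ D, i ∉ E → c i = v i :=
      ⟨fun H i hi hiE => (hac i hiE) ▸ H i hi hiE, fun H i hi hiE => (hac i hiE).symm ▸ H i hi hiE⟩
    have e2 : h (e t).2 (ov D v' a) = h (e t).2 (ov D v' c) := by
      apply hh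
      intro i hi
      by_cases hD : i ∈ D
      · rw [ov_mem hD, ov_mem hD]
      · rw [ov_notMem hD, ov_notMem hD, hac i hi]
    simp only [e1, e2, hh (e t).1 a c hac]
  · intro w
    have e1 : (∀ i ∈ D, w i = v i) ↔ (∀ i ∈ D, i ∈ E → w i = v i) ∧
        ∀ i ∈ D, i ∉ E → w i = v i := by
      constructor
      · exact fun H => ⟨fun i hi _ => H i hi, fun i hi _ => H i hi⟩
      · rintro ⟨H1, H2⟩ i hi
        by_cases hE : i ∈ E
        · exact H1 i hi hE
        · exact H2 i hi hE
    have e2 : ∑ t : Fin (s * s), g (e t).1 w * h (e t).1 w *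
        (g (e t).2 (ov D v' w) * h (e t).2 (ov D v' w)) = f w * f (ov D v' w) := by
      rw [hfe w, hfe (ov D v' w), Finset.sum_mul_sum, ← Finset.sum_product']
      exact Fintype.sum_equiv e _ _ fun t => rfl
    unfold cut
    by_cases H : ∀ i ∈ D, w i = v i
    · rw [if_pos H, ← e2]
      apply Finset.sum_congr rfl
      intro t _
      simp only [if_pos (e1.1 H).1, if_pos (e1.1 H).2]
      ring
    · rw [if_neg H]
      symm
      apply Finset.sum_eq_zero
      intro t _
      rw [e1, not_and_or] at H
      rcases H with H | H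
      · simp only [if_neg H]
        ring
      · simp only [if_neg H]
        ring

theorem treeRank_cut {f : (ι → X) → F} {s : ℕ} {t : Tree ι} (hf : TreeRank f s t)
    (D : Finset ι) (v v' : ι → X) : TreeRank (cut f D v v') (s * s) t := by
  induction t with
  | leaf i => trivial
  | node l r ihl ihr => exact ⟨rankLe_cut hf.1 D v v', ihl hf.2.1, ihr hf.2.2⟩

/-- the words of `T` at `v` which stay in `T` at `v'` -/
def pairSet (T : Finset (ι → X)) (D : Finset ι) (v v' : ι → X) : Finset (ι → X) :=
  T.filter fun w => (∀ i ∈ D, w i = v i) ∧ ov D v' w ∈ T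

theorem card_pairSet (T : Finset (ι → X)) (D : Finset ι) (o v v' : ι → X) :
    (pairSet T D v v').card = (col D o T v ∩ col D o T v').card := by
  refine Finset.card_bij (fun w _ => ov D o w) ?_ ?_ ?_
  · intro w hw
    rw [pairSet, Finset.mem_filter] at hw
    have e : ∀ z : ι → X, ov D z (ov D o w) = ov D z w := by
      intro z
      funext i
      by_cases hi : i ∈ D
      · rw [ov_mem hi, ov_mem hi]
      · rw [ov_notMem hi, ov_notMem hi, ov_notMem hi]
    rw [Finset.mem_inter, mem_col, mem_col, e, e]
    have e2 : ov D v w = w := by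
      funext i
      by_cases hi : i ∈ D
      · rw [ov_mem hi, hw.2.1 i hi]
      · rw [ov_notMem hi]
    rw [e2]
    exact ⟨⟨fun i hi => ov_mem hi, hw.1⟩, fun i hi => ov_mem hi, hw.2.2⟩
  · intro w hw w' hw' h
    rw [pairSet, Finset.mem_filter] at hw hw'
    funext i
    by_cases hi : i ∈ D
    · rw [hw.2.1 i hi, hw'.2.1 i hi]
    · have := congrFun h i
      simp only [ov_notMem hi] at this
      exact this
  · intro u hu
    rw [Finset.mem_inter, mem_col, mem_col] at hu
    obtain ⟨⟨h1, h2⟩, -, h3⟩ := hu
    have e : ov D v' (ov D v u) = ov D v' u := by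
      funext i
      by_cases hi : i ∈ D
      · rw [ov_mem hi, ov_mem hi]
      · rw [ov_notMem hi, ov_notMem hi, ov_notMem hi]
    refine ⟨ov D v u, ?_, ?_⟩
    · rw [pairSet, Finset.mem_filter, e]
      exact ⟨h2, fun i hi => ov_mem hi, h3⟩
    · funext i
      by_cases hi : i ∈ D
      · rw [ov_mem hi, h1 i hi]
      · rw [ov_notMem hi, ov_notMem hi]

theorem supp_cut (f : (ι → X) → F) (D : Finset ι) (v v' : ι → X) :
    supp (cut f D v v') = pairSet (supp f) D v v' := by
  ext w
  rw [mem_supp, cut_ne, pairSet, Finset.mem_filter, mem_supp, mem_supp]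
  tauto

end Pool.Agent.Helper29.LR
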