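import Pool.Agent.Helper29.LR.RobSupp2

/-!
The robust form for support ranks as lower bounds for the representation function.
-/

open Finset

namespace Pool.Agent.Helper29.LR

open Pool.Agent.Helper82.CF (rep)

theorem log_le_of_rpow {N t : ℕ} {K E : ℝ} (hE : 0 < E) (ht : 0 < t) (hN : 0 < N)
    (h : (t : ℝ) ≤ K * (N : ℝ) ^ (1 - 1 / E)) : Real.log N ≤ E * Real.log (K * N / t) := by
  have ht' : (0 : ℝ) < t := by exact_mod_cast ht
  have hN' : (0 : ℝ) < N := by exact_mod_cast hN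
  have hp : (0 : ℝ) < (N : ℝ) ^ (1 - 1 / E) := Real.rpow_pos_of_pos hN' _
  have h1 : (N : ℝ) ^ (1 / E) ≤ K * N / t := by
    rw [le_div_iff₀ ht']
    calc (N : ℝ) ^ (1 / E) * t ≤ (N : ℝ) ^ (1 / E) * (K * (N : ℝ) ^ (1 - 1 / E)) :=
          mul_le_mul_of_nonneg_left h (Real.rpow_nonneg hN'.le _)
      _ = K * ((N : ℝ) ^ (1 / E) * (N : ℝ) ^ (1 - 1 / E)) := by ring
      _ = K * N := by
          rw [← Real.rpow_add hN']
          have : 1 / E + (1 - 1 / E) = 1 := by ring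
          rw [this, Real.rpow_one]
  have h2 := Real.log_le_log (Real.rpow_pos_of_pos hN' _) h1
  rw [Real.log_rpow hN'] at h2
  have h3 : E * (1 / E * Real.log N) ≤ E * Real.log (K * N / t) :=
    mul_le_mul_of_nonneg_left h2 hE.le
  have h4 : E * (1 / E * Real.log N) = Real.log N := by
    field_simp
  linarith

/-- the maximum of the representation function up to `2 x` -/
theorem exists_max_rep {A : Set ℕ} {x a : ℕ} (ha : a ∈ A) (hax : a ≤ x) :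
    ∃ m ≤ 2 * x, 1 ≤ rep A m ∧ ∀ m' ≤ 2 * x, rep A m' ≤ rep A m := by
  obtain ⟨m, hm, hmax⟩ := Finset.exists_max_image (Finset.range (2 * x + 1)) (rep A)
    ⟨0, Finset.mem_range.2 (Nat.succ_pos _)⟩
  refine ⟨m, by have := Finset.mem_range.1 hm; omega, ?_, fun m' hm' =>
    hmax m' (Finset.mem_range.2 (by omega))⟩
  exact (Helper84.TN.one_le_rep ha).trans (hmax (2 * a) (Finset.mem_range.2 (by omega)))

theorem supp_words_rate {A : Set ℕ} {n b x s N : ℕ} (T : Helper84.TN.Tree (Fin n))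
    (hT : T.Proper) (huniv : T.set = Finset.univ) (S : Finset (Fin n → Fin b)) (hs : 1 ≤ s)
    (hr : ∀ D ∈ T.blocks, Helper84.TN.SuppRank S D s) (hN0 : 0 < N)
    (hN : N ≤ ({a : ℕ | a ∈ A ∧ a ≤ x ∧ ∃ v ∈ S, Helper84.TN.value v = a} : Set ℕ).ncard) :
    ∃ m ≤ 2 * x, Real.log S.card ≤ 10 * (Nat.log 2 (rep A m) + 2) * rep A m *
      Real.log (32 * n * b * s * S.card / N) := by
  have hne : ({a : ℕ | a ∈ A ∧ a ≤ x ∧ ∃ v ∈ S, Helper84.TN.value v = a} : Set ℕ).Nonempty := by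
    apply Set.nonempty_of_ncard_ne_zero
    omega
  obtain ⟨a, ha, hax, v, hv, -⟩ := hne
  obtain ⟨m, hm, hm1, hmax⟩ := exists_max_rep ha hax
  refine ⟨m, hm, ?_⟩
  have h := supp_words2 T hT huniv S hs hr hm1 hmax
  have hNr : (N : ℝ) ≤ (({a : ℕ | a ∈ A ∧ a ≤ x ∧ ∃ v ∈ S, Helper84.TN.value v = a} :
      Set ℕ).ncard : ℝ) := by exact_mod_cast hN
  have hR : (0 : ℝ) < rep A m := by exact_mod_cast hm1
  exact log_le_of_rpow (by positivity) hN0 (Finset.card_pos.2 ⟨v, hv⟩) (hNr.trans h)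

theorem supp_choice_rate {A : Set ℕ} {n b x s N : ℕ} (T : Helper84.TN.Tree (Fin n ⊕ Fin n))
    (hT : T.Proper) (huniv : T.set = Finset.univ) (S : Finset (Fin n ⊕ Fin n → Fin b))
    (hs : 1 ≤ s) (hr : ∀ D ∈ T.blocks, Helper84.TN.SuppRank S D s) (hN0 : 0 < N)
    (hN : N ≤ ({m : ℕ | ∃ v ∈ S, ∃ a : ℕ, Helper84.TN.value (v ∘ Sum.inl) = m ∧
      Helper84.TN.value (v ∘ Sum.inr) = a ∧ a ∈ A ∧ a ≤ x ∧ ∃ a' ∈ A, a' ≤ x ∧ a + a' = m} :
      Set ℕ).ncard) :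
    ∃ m ≤ 2 * x, Real.log S.card ≤ 20 * (2 * Nat.log 2 (rep A m) + 3) * (rep A m : ℝ) ^ 2 *
      Real.log (64 * n * b * s * S.card / N) := by
  have hne : ({m : ℕ | ∃ v ∈ S, ∃ a : ℕ, Helper84.TN.value (v ∘ Sum.inl) = m ∧
      Helper84.TN.value (v ∘ Sum.inr) = a ∧ a ∈ A ∧ a ≤ x ∧ ∃ a' ∈ A, a' ≤ x ∧ a + a' = m} :
      Set ℕ).Nonempty := by
    apply Set.nonempty_of_ncard_ne_zero
    omega
  obtain ⟨_, v, hv, a, -, -, ha, hax, -⟩ := hne
  obtain ⟨m, hm, hm1, hmax⟩ := exists_max_rep ha hax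
  refine ⟨m, hm, ?_⟩
  have h := supp_choice2 T hT huniv S hs hr hm1 hmax
  have hNr : (N : ℝ) ≤ (({m : ℕ | ∃ v ∈ S, ∃ a : ℕ, Helper84.TN.value (v ∘ Sum.inl) = m ∧
      Helper84.TN.value (v ∘ Sum.inr) = a ∧ a ∈ A ∧ a ≤ x ∧ ∃ a' ∈ A, a' ≤ x ∧ a + a' = m} :
      Set ℕ).ncard : ℝ) := by exact_mod_cast hN
  have hR : (0 : ℝ) < rep A m := by exact_mod_cast hm1
  exact log_le_of_rpow (by positivity) hN0 (Finset.card_pos.2 ⟨v, hv⟩) (hNr.trans h)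

end Pool.Agent.Helper29.LR
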