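import Pool.Agent.Helper29.LR.Bridge

/-!
The robust form in terms of ranks of matrices: the literal statements for the text.
-/

open Finset

namespace Pool.Agent.Helper29.LR

open Pool.Agent.Helper82.CF (rep)

variable {F : Type*} [Field F]

theorem rob_words {A : Set ℕ} {n b x s k : ℕ} (T : Helper84.TN.Tree (Fin n)) (hT : T.Proper)
    (huniv : T.set = Finset.univ) (f : (Fin n → Fin b) → F) (hs : 1 ≤ s)
    (hr : ∀ D ∈ T.blocks, Helper84.TN.rk f D ≤ s)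
    (hg : ∀ m ≤ 2 * x, rep A m < 2 ^ (k + 1)) :
    (({a : ℕ | a ∈ A ∧ a ≤ x ∧ ∃ v, f v ≠ 0 ∧ Helper84.TN.value v = a} : Set ℕ).ncard : ℝ) ≤
      32 * n * b * s * (Helper84.TN.size f : ℝ) ^ (1 - 1 / (2 * (5 : ℝ) ^ (k + 1))) := by
  refine le_trans ?_ (robust_value hT huniv f hs hr hg)
  have hfin : ({w | f w ≠ 0 ∧ Helper84.TN.value w ∈ A ∧ Helper84.TN.value w ≤ x} :
      Set (Fin n → Fin b)).Finite := Set.toFinite _
  have h1 : ({a : ℕ | a ∈ A ∧ a ≤ x ∧ ∃ v, f v ≠ 0 ∧ Helper84.TN.value v = a} : Set ℕ) ⊆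
      Helper84.TN.value '' ({w | f w ≠ 0 ∧ Helper84.TN.value w ∈ A ∧ Helper84.TN.value w ≤ x} :
        Set (Fin n → Fin b)) := by
    rintro a ⟨ha, hax, v, hv, rfl⟩
    exact ⟨v, ⟨hv, ha, hax⟩, rfl⟩
  exact_mod_cast (Set.ncard_le_ncard h1 (hfin.image _)).trans (Set.ncard_image_le hfin)

theorem rob_choice {A : Set ℕ} {n b x s k : ℕ} (T : Helper84.TN.Tree (Fin n ⊕ Fin n))
    (hT : T.Proper) (huniv : T.set = Finset.univ) (f : (Fin n ⊕ Fin n → Fin b) → F) (hs : 1 ≤ s)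
    (hr : ∀ D ∈ T.blocks, Helper84.TN.rk f D ≤ s)
    (hg : ∀ m ≤ 2 * x, rep A m < 2 ^ (k + 1)) :
    (({m : ℕ | ∃ (v : Fin n ⊕ Fin n → Fin b) (a : ℕ), f v ≠ 0 ∧
      Helper84.TN.value (v ∘ Sum.inl) = m ∧ Helper84.TN.value (v ∘ Sum.inr) = a ∧
      a ∈ A ∧ a ≤ x ∧ ∃ a' ∈ A, a' ≤ x ∧ a + a' = m} : Set ℕ).ncard : ℝ) ≤
      64 * n * b * s * (Helper84.TN.size f : ℝ) ^ (1 - 1 / (2 * (25 : ℝ) ^ (k + 1))) := by
  have h := robust_pair_value hT huniv f hs hr hg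
  have e : (2 : ℝ) * 5 ^ (2 * (k + 1)) = 2 * 25 ^ (k + 1) := by
    rw [pow_mul]
    norm_num
  rw [e] at h
  refine le_trans (le_of_eq ?_) h
  congr 2
  ext m
  constructor
  · rintro ⟨v, a, hv, h1, h2, ha, hax, a', ha', hax', h3⟩
    exact ⟨v, hv, h1, a, ha, a', ha', hax, hax', h3, h2⟩
  · rintro ⟨v, hv, h1, a, ha, a', ha', hax, hax', h3, h2⟩
    exact ⟨v, a, hv, h1, h2, ha, hax, a', ha', hax', h3⟩

end Pool.Agent.Helper29.LR
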