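import Pool.Agent.Helper29.LR.NodeRob
import Pool.Agent.Helper84.TN.Supp

/-!
The robust form for support ranks: the literal statements for the text.
-/

open Finset

namespace Pool.Agent.Helper29.LR

open Pool.Agent.Helper82.CF (rep)

theorem supp_words {A : Set ℕ} {n b x s k : ℕ} (T : Helper84.TN.Tree (Fin n)) (hT : T.Proper)
    (huniv : T.set = Finset.univ) (S : Finset (Fin n → Fin b)) (hs : 1 ≤ s)
    (hr : ∀ D ∈ T.blocks, Helper84.TN.SuppRank S D s)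
    (hg : ∀ m ≤ 2 * x, rep A m < 2 ^ (k + 1)) :
    (({a : ℕ | a ∈ A ∧ a ≤ x ∧ ∃ v ∈ S, Helper84.TN.value v = a} : Set ℕ).ncard : ℝ) ≤
      32 * n * b * s * (S.card : ℝ) ^ (1 - 1 / (2 * (5 : ℝ) ^ (k + 1))) := by
  have h := node_words (A := A) (x := x) (k := k) T hT huniv (S : Set (Fin n → Fin b)) hs
    (fun D hD => Or.inl (hr D hD)) hg
  rw [Set.ncard_coe_finset] at h
  refine le_trans ?_ h
  have hfin : ({v | v ∈ (S : Set (Fin n → Fin b)) ∧ Helper84.TN.value v ∈ A ∧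
      Helper84.TN.value v ≤ x} : Set (Fin n → Fin b)).Finite := Set.toFinite _
  have h1 : ({a : ℕ | a ∈ A ∧ a ≤ x ∧ ∃ v ∈ S, Helper84.TN.value v = a} : Set ℕ) ⊆
      Helper84.TN.value '' ({v | v ∈ (S : Set (Fin n → Fin b)) ∧ Helper84.TN.value v ∈ A ∧
      Helper84.TN.value v ≤ x} : Set (Fin n → Fin b)) := by
    rintro a ⟨ha, hax, v, hv, rfl⟩
    exact ⟨v, ⟨hv, ha, hax⟩, rfl⟩
  exact_mod_cast (Set.ncard_le_ncard h1 (hfin.image _)).trans (Set.ncard_image_le hfin)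

theorem supp_choice {A : Set ℕ} {n b x s k : ℕ} (T : Helper84.TN.Tree (Fin n ⊕ Fin n))
    (hT : T.Proper) (huniv : T.set = Finset.univ) (S : Finset (Fin n ⊕ Fin n → Fin b))
    (hs : 1 ≤ s) (hr : ∀ D ∈ T.blocks, Helper84.TN.SuppRank S D s)
    (hg : ∀ m ≤ 2 * x, rep A m < 2 ^ (k + 1)) :
    (({m : ℕ | ∃ v ∈ S, ∃ a : ℕ, Helper84.TN.value (v ∘ Sum.inl) = m ∧
      Helper84.TN.value (v ∘ Sum.inr) = a ∧ a ∈ A ∧ a ≤ x ∧ ∃ a' ∈ A, a' ≤ x ∧ a + a' = m} :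
      Set ℕ).ncard : ℝ) ≤
      64 * n * b * s * (S.card : ℝ) ^ (1 - 1 / (2 * (25 : ℝ) ^ (k + 1))) := by
  have h := node_choice (A := A) (x := x) (k := k) T hT huniv
    (S : Set (Fin n ⊕ Fin n → Fin b)) hs (fun D hD => Or.inl (hr D hD)) hg
  rw [Set.ncard_coe_finset] at h
  refine le_trans ?_ h
  have hfin : ({v | v ∈ (S : Set (Fin n ⊕ Fin n → Fin b)) ∧ ∃ a ∈ A, ∃ a' ∈ A, a ≤ x ∧ a' ≤ x ∧
      Helper84.TN.value (v ∘ Sum.inr) = a ∧ Helper84.TN.value (v ∘ Sum.inl) = a + a'} :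
      Set (Fin n ⊕ Fin n → Fin b)).Finite := Set.toFinite _
  have h1 : ({m : ℕ | ∃ v ∈ S, ∃ a : ℕ, Helper84.TN.value (v ∘ Sum.inl) = m ∧
      Helper84.TN.value (v ∘ Sum.inr) = a ∧ a ∈ A ∧ a ≤ x ∧ ∃ a' ∈ A, a' ≤ x ∧ a + a' = m} :
      Set ℕ) ⊆ (fun v : Fin n ⊕ Fin n → Fin b => Helper84.TN.value (v ∘ Sum.inl)) ''
      ({v | v ∈ (S : Set (Fin n ⊕ Fin n → Fin b)) ∧ ∃ a ∈ A, ∃ a' ∈ A, a ≤ x ∧ a' ≤ x ∧
      Helper84.TN.value (v ∘ Sum.inr) = a ∧ Helper84.TN.value (v ∘ Sum.inl) = a + a'} :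
      Set (Fin n ⊕ Fin n → Fin b)) := by
    rintro m ⟨v, hv, a, h1, h2, ha, hax, a', ha', hax', h3⟩
    exact ⟨v, ⟨hv, a, ha, a', ha', hax, hax', h2, h1.trans h3.symm⟩, h1⟩
  exact_mod_cast (Set.ncard_le_ncard h1 (hfin.image _)).trans (Set.ncard_image_le hfin)

end Pool.Agent.Helper29.LR
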