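import Pool.Agent.Helper29.LR.Node2
import Pool.Agent.Helper29.LR.NodeRob
import Pool.Agent.Helper84.TN.Supp

/-!
The robust form for support ranks, with the better exponent: the literal statements for the text.
-/

open Finset

namespace Pool.Agent.Helper29.LR

open Pool.Agent.Helper82.CF (rep)

theorem rpow_mono_exp {N : ℕ} {E E' : ℝ} (hE : 1 < E) (hEE : E ≤ E') :
    (N : ℝ) ^ (1 - 1 / E) ≤ (N : ℝ) ^ (1 - 1 / E') := by
  have h0 : 0 < E := by linarith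
  have h1 : 1 / E < 1 := by
    rw [div_lt_one h0]
    exact hE
  have h2 : 1 / E' ≤ 1 / E := one_div_le_one_div_of_le h0 hEE
  rcases Nat.eq_zero_or_pos N with hN | hN
  · rw [hN, Nat.cast_zero, Real.zero_rpow (by linarith), Real.zero_rpow (by linarith)]
  · exact Real.rpow_le_rpow_of_exponent_le (by exact_mod_cast hN) (by linarith)

/-- Words, `r_A < 2 ^ k`. -/
theorem supp_words_pow {A : Set ℕ} {n b x s k : ℕ} (T : Helper84.TN.Tree (Fin n))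
    (hT : T.Proper) (huniv : T.set = Finset.univ) (S : Finset (Fin n → Fin b)) (hs : 1 ≤ s)
    (hr : ∀ D ∈ T.blocks, Helper84.TN.SuppRank S D s)
    (hg : ∀ m ≤ 2 * x, rep A m < 2 ^ k) :
    (({a : ℕ | a ∈ A ∧ a ≤ x ∧ ∃ v ∈ S, Helper84.TN.value v = a} : Set ℕ).ncard : ℝ) ≤
      32 * n * b * s * (S.card : ℝ) ^ (1 - 1 / (5 * (k + 1) * (2 : ℝ) ^ k)) := by
  classical
  have h := low2_numbers (A := A) (x := x) (k := k) hg
    (dig := fun (i : Fin n) (d : Fin b) => ((d : ℕ) : ℤ) * (b : ℤ) ^ (i : ℕ))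
    (word_injective n b) (t := conv T) (by rw [pos_conv, huniv]) hs (S := S)
    (treeLow_conv fun D hD => Or.inl (hr D hD))
  have hsz : (((conv T).size : ℝ) + 1) = n := by
    have := size_conv hT
    rw [huniv, Finset.card_univ, Fintype.card_fin] at this
    exact_mod_cast this
  rw [hsz, Fintype.card_fin] at h
  refine le_trans ?_ h
  have hfin : ({w | w ∈ S ∧ ∃ a ∈ A, a ≤ x ∧
      ∑ i, ((w i : ℕ) : ℤ) * (b : ℤ) ^ (i : ℕ) = (a : ℤ)} : Set (Fin n → Fin b)).Finite :=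
    Set.toFinite _
  have h1 : ({a : ℕ | a ∈ A ∧ a ≤ x ∧ ∃ v ∈ S, Helper84.TN.value v = a} : Set ℕ) ⊆
      Helper84.TN.value '' ({w | w ∈ S ∧ ∃ a ∈ A, a ≤ x ∧
      ∑ i, ((w i : ℕ) : ℤ) * (b : ℤ) ^ (i : ℕ) = (a : ℤ)} : Set (Fin n → Fin b)) := by
    rintro a ⟨ha, hax, v, hv, rfl⟩
    refine ⟨v, ⟨hv, _, ha, hax, ?_⟩, rfl⟩
    unfold Helper84.TN.value
    push_cast
    rfl
  exact_mod_cast (Set.ncard_le_ncard h1 (hfin.image _)).trans (Set.ncard_image_le hfin)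

/-- Choices, `r_A < 2 ^ k`. -/
theorem supp_choice_pow {A : Set ℕ} {n b x s k : ℕ} (T : Helper84.TN.Tree (Fin n ⊕ Fin n))
    (hT : T.Proper) (huniv : T.set = Finset.univ) (S : Finset (Fin n ⊕ Fin n → Fin b))
    (hs : 1 ≤ s) (hr : ∀ D ∈ T.blocks, Helper84.TN.SuppRank S D s)
    (hg : ∀ m ≤ 2 * x, rep A m < 2 ^ k) :
    (({m : ℕ | ∃ v ∈ S, ∃ a : ℕ, Helper84.TN.value (v ∘ Sum.inl) = m ∧
      Helper84.TN.value (v ∘ Sum.inr) = a ∧ a ∈ A ∧ a ≤ x ∧ ∃ a' ∈ A, a' ≤ x ∧ a + a' = m} :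
      Set ℕ).ncard : ℝ) ≤
      64 * n * b * s * (S.card : ℝ) ^ (1 - 1 / (5 * (2 * k + 1) * (4 : ℝ) ^ k)) := by
  classical
  have h := low2_pairs (A := A) (x := x) (k := k) hg (digPair_injective n b) (t := conv T)
    (by rw [pos_conv, huniv]) hs (S := S) (treeLow_conv fun D hD => Or.inl (hr D hD))
  have hsz : (((conv T).size : ℝ) + 1) = 2 * n := by
    have := size_conv hT
    rw [huniv, Finset.card_univ, Fintype.card_sum, Fintype.card_fin] at this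
    have h2 : (conv T).size + 1 = 2 * n := by omega
    exact_mod_cast h2
  rw [hsz, Fintype.card_fin] at h
  refine le_trans ?_ (h.trans (le_of_eq (by ring)))
  have hfin : ({w | w ∈ S ∧ ∃ a ∈ A, ∃ a' ∈ A, a ≤ x ∧ a' ≤ x ∧
      ∑ i, digPair n b i (w i) = ((a : ℤ), (a' : ℤ))} : Set (Fin n ⊕ Fin n → Fin b)).Finite :=
    Set.toFinite _
  have h1 : ({m : ℕ | ∃ v ∈ S, ∃ a : ℕ, Helper84.TN.value (v ∘ Sum.inl) = m ∧
      Helper84.TN.value (v ∘ Sum.inr) = a ∧ a ∈ A ∧ a ≤ x ∧ ∃ a' ∈ A, a' ≤ x ∧ a + a' = m} :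
      Set ℕ) ⊆ (fun v : Fin n ⊕ Fin n → Fin b => Helper84.TN.value (v ∘ Sum.inl)) ''
      ({w | w ∈ S ∧ ∃ a ∈ A, ∃ a' ∈ A, a ≤ x ∧ a' ≤ x ∧
      ∑ i, digPair n b i (w i) = ((a : ℤ), (a' : ℤ))} : Set (Fin n ⊕ Fin n → Fin b)) := by
    rintro m ⟨v, hv, a, h1, h2, ha, hax, a', ha', hax', h3⟩
    refine ⟨v, ⟨hv, a, ha, a', ha', hax, hax', ?_⟩, h1⟩
    rw [sum_digPair]
    have e3 : ∑ i, ((v (.inr i) : ℕ) : ℤ) * (b : ℤ) ^ (i : ℕ) =
        ((Helper84.TN.value (v ∘ Sum.inr) : ℕ) : ℤ) := by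
      unfold Helper84.TN.value
      push_cast
      rfl
    have e4 : ∑ i, ((v (.inl i) : ℕ) : ℤ) * (b : ℤ) ^ (i : ℕ) =
        ((Helper84.TN.value (v ∘ Sum.inl) : ℕ) : ℤ) := by
      unfold Helper84.TN.value
      push_cast
      rfl
    rw [e3, e4, h1, h2, ← h3]
    push_cast
    rw [add_sub_cancel_left]
  exact_mod_cast (Set.ncard_le_ncard h1 (hfin.image _)).trans (Set.ncard_image_le hfin)

/-- Words: `r_A ≤ R`. -/
theorem supp_words2 {A : Set ℕ} {n b x s R : ℕ} (T : Helper84.TN.Tree (Fin n)) (hT : T.Proper)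
    (huniv : T.set = Finset.univ) (S : Finset (Fin n → Fin b)) (hs : 1 ≤ s)
    (hr : ∀ D ∈ T.blocks, Helper84.TN.SuppRank S D s) (hR : 1 ≤ R)
    (hg : ∀ m ≤ 2 * x, rep A m ≤ R) :
    (({a : ℕ | a ∈ A ∧ a ≤ x ∧ ∃ v ∈ S, Helper84.TN.value v = a} : Set ℕ).ncard : ℝ) ≤
      32 * n * b * s * (S.card : ℝ) ^ (1 - 1 / (10 * (Nat.log 2 R + 2) * (R : ℝ))) := by
  have h1 : R < 2 ^ (Nat.log 2 R + 1) := Nat.lt_pow_succ_log_self (by norm_num) R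
  have h2 : 2 ^ Nat.log 2 R ≤ R := Nat.pow_log_le_self 2 (by omega)
  refine (supp_words_pow T hT huniv S hs hr (fun m hm => lt_of_le_of_lt (hg m hm) h1)).trans ?_
  refine mul_le_mul_of_nonneg_left ?_ (by positivity)
  have h3 : (2 : ℝ) ^ Nat.log 2 R ≤ R := by exact_mod_cast h2
  have h4 : (1 : ℝ) ≤ 2 ^ Nat.log 2 R := one_le_pow₀ (by norm_num)
  have h5 : (0 : ℝ) ≤ (Nat.log 2 R : ℝ) := Nat.cast_nonneg _
  apply rpow_mono_exp
  · push_cast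
    rw [pow_succ]
    nlinarith
  · push_cast
    rw [pow_succ]
    nlinarith

/-- Choices: `r_A ≤ R`. -/
theorem supp_choice2 {A : Set ℕ} {n b x s R : ℕ} (T : Helper84.TN.Tree (Fin n ⊕ Fin n))
    (hT : T.Proper) (huniv : T.set = Finset.univ) (S : Finset (Fin n ⊕ Fin n → Fin b))
    (hs : 1 ≤ s) (hr : ∀ D ∈ T.blocks, Helper84.TN.SuppRank S D s) (hR : 1 ≤ R)
    (hg : ∀ m ≤ 2 * x, rep A m ≤ R) :
    (({m : ℕ | ∃ v ∈ S, ∃ a : ℕ, Helper84.TN.value (v ∘ Sum.inl) = m ∧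
      Helper84.TN.value (v ∘ Sum.inr) = a ∧ a ∈ A ∧ a ≤ x ∧ ∃ a' ∈ A, a' ≤ x ∧ a + a' = m} :
      Set ℕ).ncard : ℝ) ≤
      64 * n * b * s * (S.card : ℝ) ^ (1 - 1 / (20 * (2 * Nat.log 2 R + 3) * (R : ℝ) ^ 2)) := by
  have h1 : R < 2 ^ (Nat.log 2 R + 1) := Nat.lt_pow_succ_log_self (by norm_num) R
  have h2 : 2 ^ Nat.log 2 R ≤ R := Nat.pow_log_le_self 2 (by omega)
  refine (supp_choice_pow T hT huniv S hs hr (fun m hm => lt_of_le_of_lt (hg m hm) h1)).trans ?_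
  refine mul_le_mul_of_nonneg_left ?_ (by positivity)
  have h3 : (4 : ℝ) ^ Nat.log 2 R ≤ (R : ℝ) ^ 2 := by
    have e : (4 : ℝ) ^ Nat.log 2 R = ((2 : ℝ) ^ Nat.log 2 R) ^ 2 := by
      rw [← pow_mul, mul_comm, pow_mul]
      norm_num
    rw [e]
    exact pow_le_pow_left₀ (by positivity) (by exact_mod_cast h2) 2
  have h4 : (1 : ℝ) ≤ 4 ^ Nat.log 2 R := one_le_pow₀ (by norm_num)
  have h5 : (0 : ℝ) ≤ (Nat.log 2 R : ℝ) := Nat.cast_nonneg _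
  apply rpow_mono_exp
  · push_cast
    rw [pow_succ]
    nlinarith
  · push_cast
    rw [pow_succ]
    nlinarith

end Pool.Agent.Helper29.LR
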